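import Pool.Agent.L5helper51.WG.Count

/-!
# Approximators for real-valued monotone functions

`U` is a set of `n` vertices. An approximator has a base value and a value for each pair of vertices.
On a set of present pairs it has the maximum of the base value and of the values of these pairs.
-/

namespace Pool.Agent.L5helper51.WG

open Finset

variable {U : Type*} [Fintype U] [DecidableEq U]

/-- quantile -/
noncomputable def quant {X : Type*} (S : Finset X) (h : X → ℝ) (d : ℕ) (b0 : ℝ) : ℝ :=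
  ((S.image h).filter (fun t => #{x ∈ S | h x < t} ≤ d)).fold max b0 id

theorem base_le_quant {X : Type*} (S : Finset X) (h : X → ℝ) (d : ℕ) (b0 : ℝ) :
    b0 ≤ quant S h d b0 := (le_fold_max _).2 (Or.inl le_rfl)

theorem quant_spec {X : Type*} (S : Finset X) (h : X → ℝ) (d : ℕ) (b0 : ℝ) :
    quant S h d b0 = b0 ∨ #{x ∈ S | h x < quant S h d b0} ≤ d := by
  have h1 := (le_fold_max (s := (S.image h).filter (fun t => #{x ∈ S | h x < t} ≤ d)) (b := b0)
    (f := id) (quant S h d b0)).1 le_rfl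
  rcases h1 with h1 | ⟨t, ht, h1⟩
  · exact Or.inl (le_antisymm h1 (base_le_quant S h d b0))
  · have h2 : t ≤ quant S h d b0 := (le_fold_max _).2 (Or.inr ⟨t, ht, le_rfl⟩)
    have h3 : quant S h d b0 = t := le_antisymm h1 h2
    rw [h3]
    exact Or.inr (mem_filter.1 ht).2

theorem le_quant {X : Type*} {S : Finset X} {h : X → ℝ} {d : ℕ} {b0 t : ℝ}
    (ht : #{x ∈ S | h x < t} ≤ d) (hd : d < #S) : t ≤ quant S h d b0 := by
  obtain ⟨x, hx⟩ : ({x ∈ S | t ≤ h x} : Finset X).Nonempty := by
    rw [← card_pos]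
    by_contra hcon
    have h1 : #{x ∈ S | t ≤ h x} = 0 := by omega
    have h2 : S = ({x ∈ S | h x < t} : Finset X) := by
      ext x
      rw [mem_filter]
      refine ⟨fun hx => ⟨hx, ?_⟩, fun hx => hx.1⟩
      by_contra h3
      rw [card_eq_zero] at h1
      have : x ∈ ({x ∈ S | t ≤ h x} : Finset X) := mem_filter.2 ⟨hx, not_lt.1 h3⟩
      rw [h1] at this
      simp at this
    rw [← h2] at ht
    omega
  obtain ⟨y, hy, hmin⟩ := exists_min_image ({x ∈ S | t ≤ h x} : Finset X) h ⟨x, hx⟩
  rw [mem_filter] at hy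
  refine (le_fold_max _).2 (Or.inr ⟨h y, ?_, hy.2⟩)
  rw [mem_filter]
  refine ⟨mem_image_of_mem _ hy.1, ?_⟩
  refine le_trans (card_le_card ?_) ht
  intro z hz
  rw [mem_filter] at hz ⊢
  refine ⟨hz.1, ?_⟩
  by_contra h3
  exact absurd hz.2 (not_lt.2 (hmin z (mem_filter.2 ⟨hz.1, not_lt.1 h3⟩)))

/-- approximator -/
structure App (U : Type*) where
  /-- base value -/
  base : ℝ
  /-- values of the pairs -/
  val : U → U → ℝ

/-- the value on a set of pairs -/
noncomputable def App.ev (A : App U) (X : Finset (U × U)) : ℝ :=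
  X.fold max A.base (fun p => A.val p.1 p.2)

omit [Fintype U] [DecidableEq U] in
theorem App.base_le (A : App U) (X : Finset (U × U)) : A.base ≤ A.ev X :=
  (le_fold_max _).2 (Or.inl le_rfl)

omit [Fintype U] [DecidableEq U] in
theorem App.val_le (A : App U) {X : Finset (U × U)} {a b : U} (h : (a, b) ∈ X) :
    A.val a b ≤ A.ev X :=
  (le_fold_max _).2 (Or.inr ⟨(a, b), h, le_rfl⟩)

omit [Fintype U] [DecidableEq U] in
theorem App.ev_le (A : App U) {X : Finset (U × U)} {c : ℝ} (h1 : A.base ≤ c)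
    (h2 : ∀ a b, (a, b) ∈ X → A.val a b ≤ c) : A.ev X ≤ c :=
  (fold_max_le _).2 ⟨h1, fun p hp => h2 p.1 p.2 hp⟩

omit [Fintype U] [DecidableEq U] in
theorem App.le_ev (A : App U) {X : Finset (U × U)} {c : ℝ} (h : c ≤ A.ev X) :
    c ≤ A.base ∨ ∃ a b, (a, b) ∈ X ∧ c ≤ A.val a b := by
  rcases (le_fold_max _).1 h with h | ⟨p, hp, h⟩
  · exact Or.inl h
  · exact Or.inr ⟨p.1, p.2, hp, h⟩

/-- the pairs separated by a colouring -/
def sepX (χ : U → Bool) : Finset (U × U) := {p | χ p.1 ≠ χ p.2}

omit [DecidableEq U] in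
theorem mem_sepX {χ : U → Bool} {a b : U} : (a, b) ∈ sepX χ ↔ χ a ≠ χ b := by
  simp [sepX]

/-- the set of colourings which separate `a` and `b` -/
def sepS (a b : U) : Finset (U → Bool) := {χ | χ a ≠ χ b}

theorem mem_sepS {a b : U} {χ : U → Bool} : χ ∈ sepS a b ↔ χ a ≠ χ b := by simp [sepS]

variable (L : ℕ)

/-- tolerance for pairs -/
def d2 (U : Type*) [Fintype U] (L : ℕ) : ℕ := 2 ^ (Fintype.card U - L)

/-- tolerance for the base value -/
def d0 (U : Type*) [Fintype U] (L : ℕ) : ℕ := (L + 1) * 2 ^ (Fintype.card U - L)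

/-- the least value -/
noncomputable def mn (h : (U → Bool) → ℝ) : ℝ := (univ.image h).min' (univ_nonempty.image h)

theorem mn_le (h : (U → Bool) → ℝ) (χ : U → Bool) : mn h ≤ h χ :=
  min'_le _ _ (mem_image_of_mem _ (mem_univ _))

/-- The approximator of a function of the colouring. -/
noncomputable def mk (h : (U → Bool) → ℝ) : App U where
  base := quant univ h (d0 U L) (mn h)
  val a b := quant (sepS a b) h (d2 U L) (quant univ h (d0 U L) (mn h))

theorem base_le_val (h : (U → Bool) → ℝ) (a b : U) : (mk L h).base ≤ (mk L h).val a b :=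
  base_le_quant _ _ _ _

theorem val_symm (h : (U → Bool) → ℝ) (a b : U) : (mk L h).val a b = (mk L h).val b a := by
  have h1 : sepS a b = sepS b a := by
    ext χ
    rw [mem_sepS, mem_sepS]
    exact ne_comm
  simp only [mk, h1]

theorem val_self (h : (U → Bool) → ℝ) (a : U) : (mk L h).val a a = (mk L h).base := by
  have h1 : sepS a a = ∅ := by
    ext χ
    simp [mem_sepS]
  simp only [mk, h1]
  simp [quant]

/-- Few colourings are bad. -/
theorem card_bad (h : (U → Bool) → ℝ) :
    #{χ : U → Bool | h χ < (mk L h).ev (sepX χ)} ≤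
      d0 U L + Fintype.card U ^ 2 * d2 U L := by
  classical
  set A := mk L h with hA
  have h1 : #{χ : U → Bool | h χ < A.base} ≤ d0 U L := by
    rcases quant_spec univ h (d0 U L) (mn h) with h2 | h2
    · have h3 : ({χ : U → Bool | h χ < A.base} : Finset _) = ∅ := by
        apply filter_false_of_mem
        intro χ _
        rw [not_lt, hA]
        simp only [mk]
        rw [h2]
        exact mn_le h χ
      rw [h3]
      simp
    · exact h2
  have h2 : ∀ p : U × U, #{χ : U → Bool | χ p.1 ≠ χ p.2 ∧ h χ < A.val p.1 p.2 ∧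
      A.base < A.val p.1 p.2} ≤ d2 U L := by
    rintro ⟨a, b⟩
    rcases quant_spec (sepS a b) h (d2 U L) A.base with h3 | h3
    · have h4 : ({χ : U → Bool | χ a ≠ χ b ∧ h χ < A.val a b ∧ A.base < A.val a b} : Finset _)
          = ∅ := by
        apply filter_false_of_mem
        rintro χ _ ⟨-, -, h5⟩
        have h6 : A.val a b = A.base := h3
        rw [h6] at h5
        exact lt_irrefl _ h5
      simp only
      rw [h4]
      simp
    · refine le_trans (card_le_card ?_) h3
      intro χ hχ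
      simp only [mem_filter, mem_univ, true_and, mem_sepS] at hχ ⊢
      exact ⟨hχ.1, hχ.2.1⟩
  have h3 : ({χ : U → Bool | h χ < A.ev (sepX χ)} : Finset _) ⊆
      ({χ : U → Bool | h χ < A.base} : Finset _) ∪
      (univ : Finset (U × U)).biUnion (fun p => ({χ : U → Bool | χ p.1 ≠ χ p.2 ∧
        h χ < A.val p.1 p.2 ∧ A.base < A.val p.1 p.2} : Finset _)) := by
    intro χ hχ
    rw [mem_filter] at hχ
    rw [mem_union, mem_biUnion]
    by_contra hcon
    push Not at hcon
    obtain ⟨h4, h5⟩ := hcon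
    have h6 : A.base ≤ h χ := by
      by_contra h7
      exact h4 (mem_filter.2 ⟨mem_univ _, not_le.1 h7⟩)
    refine absurd hχ.2 (not_lt.2 (A.ev_le h6 ?_))
    intro a b hab
    by_contra h7
    have h8 := h5 (a, b) (mem_univ _)
    rw [mem_filter] at h8
    apply h8
    refine ⟨mem_univ _, mem_sepX.1 hab, not_le.1 h7, lt_of_le_of_lt h6 (not_le.1 h7)⟩
  calc _ ≤ _ := (card_le_card h3).trans (card_union_le _ _)
    _ ≤ d0 U L + ∑ p : U × U, d2 U L :=
        Nat.add_le_add h1 (card_biUnion_le.trans (sum_le_sum (fun p _ => h2 p)))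
    _ = _ := by
      rw [sum_const, smul_eq_mul, card_univ, Fintype.card_prod, sq]

variable {L}

theorem pow_le_aux {n L c : ℕ} (hL : L ≤ n) (h : 2 ^ L * c ≤ 2 ^ n) : c ≤ 2 ^ (n - L) := by
  have h1 : 2 ^ n = 2 ^ L * 2 ^ (n - L) := by rw [← pow_add, Nat.add_sub_cancel' hL]
  rw [h1] at h
  exact Nat.le_of_mul_le_mul_left h (by positivity)

theorem d0_lt (hL : L ≤ Fintype.card U) (hL2 : 2 ≤ L) : d0 U L < #(univ : Finset (U → Bool)) := by
  rw [card_univ, Fintype.card_fun, Fintype.card_bool, d0]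
  have h1 : 2 ^ Fintype.card U = 2 ^ L * 2 ^ (Fintype.card U - L) := by
    rw [← pow_add, Nat.add_sub_cancel' hL]
  have h2 : L + 1 < 2 ^ L := by
    clear h1 hL
    induction L, hL2 using Nat.le_induction with
    | base => norm_num
    | succ L _ ih => rw [pow_succ]; omega
  rw [h1]
  exact Nat.mul_lt_mul_of_pos_right h2 (by positivity)

theorem d2_lt (hL : L ≤ Fintype.card U) (hL2 : 2 ≤ L) {a b : U} (hab : a ≠ b) :
    d2 U L < #(sepS a b) := by
  classical
  have h1 := count_eq (U := U) (fun _ : Unit => b) (fun _ => a) {()} (by simp) (by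
    simp [hab.symm])
  replace h1 : 2 * #{χ : U → Bool | χ a = χ b} ≤ 2 ^ Fintype.card U := by simpa using h1
  have h2 : #{χ : U → Bool | χ a = χ b} + #(sepS a b) = 2 ^ Fintype.card U := by
    rw [sepS, card_filter_add_card_filter_not, card_univ, Fintype.card_fun, Fintype.card_bool]
  have h3 : 2 ^ Fintype.card U = 4 * 2 ^ (Fintype.card U - 2) := by
    rw [show (4 : ℕ) = 2 ^ 2 by norm_num, ← pow_add, Nat.add_sub_cancel' (by omega)]
  have h4 : d2 U L ≤ 2 ^ (Fintype.card U - 2) := by
    rw [d2]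
    exact Nat.pow_le_pow_right (by norm_num) (by omega)
  have h5 : 0 < 2 ^ (Fintype.card U - 2) := by positivity
  omega

end Pool.Agent.L5helper51.WG
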