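import Pool.Agent.L5helper51.WG.Run

/-!
# Triangle detection: blocks and backgrounds
-/

namespace Pool.Agent.L5helper51.WG

open Finset

open Classical in
/-- the adjacency matrix -/
noncomputable def adj {V : Type} (G : SimpleGraph V) (p : V × V) : ℝ := if G.Adj p.1 p.2 then 1 else 0

variable {N : ℕ}

/-- the graph with background `B` and the pairs `X` in the block `i` -/
def gr (B : SimpleGraph (Fin N)) (n i : ℕ) (X : Finset (Fin n × Fin n)) : SimpleGraph (Fin N) :=
  B ⊔ SimpleGraph.fromRel (fun u v => ∃ a b, (a, b) ∈ X ∧ u.val = i * n + a ∧ v.val = i * n + b)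

open Classical in
/-- the labels of the entries of the adjacency matrix -/
noncomputable def labB (B : SimpleGraph (Fin N)) (n i : ℕ) (p : Fin N × Fin N) :
    (Fin n × Fin n) ⊕ ℝ :=
  if h : (i * n ≤ p.1.val ∧ p.1.val < i * n + n) ∧ (i * n ≤ p.2.val ∧ p.2.val < i * n + n) then
    .inl (⟨p.1.val - i * n, by omega⟩, ⟨p.2.val - i * n, by omega⟩)
  else .inr (adj B p)

/-- symmetric and irreflexive -/
def SI {n : ℕ} (X : Finset (Fin n × Fin n)) : Prop :=
  (∀ a b, (a, b) ∈ X → (b, a) ∈ X) ∧ ∀ a, (a, a) ∉ X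

theorem si_sepX {n : ℕ} (χ : Fin n → Bool) : SI (sepX χ) := by
  refine ⟨fun a b h => ?_, fun a h => ?_⟩
  · rw [mem_sepX] at h ⊢
    exact h.symm
  · rw [mem_sepX] at h
    exact h rfl

theorem si_edg {n : ℕ} {t : Fin n × Fin n × Fin n} (ht : t ∈ Dist (Fin n)) (fl : Bool) :
    SI (edg fl t) := by
  obtain ⟨x, y, z⟩ := t
  simp only [Dist, mem_filter, mem_univ, true_and] at ht
  obtain ⟨h1, h2, h3⟩ := ht
  cases fl
  · refine ⟨fun a b h => ?_, fun a h => ?_⟩
    · simp only [edg, mem_union, mem_insert, mem_singleton, Prod.mk.injEq, Bool.false_eq_true,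
        if_false, notMem_empty, or_false] at h ⊢
      tauto
    · simp only [edg, mem_union, mem_insert, mem_singleton, Prod.mk.injEq, Bool.false_eq_true,
        if_false, notMem_empty, or_false] at h
      rcases h with ⟨rfl, h⟩ | ⟨rfl, h⟩ | ⟨rfl, h⟩ | ⟨rfl, h⟩
      · exact h1 h
      · exact h1 h.symm
      · exact h2 h
      · exact h2 h.symm
  · refine ⟨fun a b h => ?_, fun a h => ?_⟩
    · simp only [edg, mem_union, mem_insert, mem_singleton, Prod.mk.injEq, if_true] at h ⊢
      tauto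
    · simp only [edg, mem_union, mem_insert, mem_singleton, Prod.mk.injEq, if_true] at h
      rcases h with (⟨rfl, h⟩ | ⟨rfl, h⟩ | ⟨rfl, h⟩ | ⟨rfl, h⟩) | ⟨rfl, h⟩ | ⟨rfl, h⟩
      · exact h1 h
      · exact h1 h.symm
      · exact h2 h
      · exact h2 h.symm
      · exact h3 h
      · exact h3 h.symm

/-- the edges of `B` are between vertices less than `m` -/
def Low (B : SimpleGraph (Fin N)) (m : ℕ) : Prop := ∀ u v, B.Adj u v → u.val < m

theorem gr_adj {B : SimpleGraph (Fin N)} {n i : ℕ} {X : Finset (Fin n × Fin n)} (hX : SI X)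
    (u v : Fin N) : (gr B n i X).Adj u v ↔ B.Adj u v ∨
      ∃ a b, (a, b) ∈ X ∧ u.val = i * n + a ∧ v.val = i * n + b := by
  rw [gr, SimpleGraph.sup_adj, SimpleGraph.fromRel_adj]
  refine or_congr Iff.rfl ⟨?_, ?_⟩
  · rintro ⟨-, h | ⟨a, b, hab, h1, h2⟩⟩
    · exact h
    · exact ⟨b, a, hX.1 _ _ hab, h2, h1⟩
  · rintro ⟨a, b, hab, h1, h2⟩
    refine ⟨?_, Or.inl ⟨a, b, hab, h1, h2⟩⟩
    rintro rfl
    have : a = b := Fin.ext (by omega)
    rw [this] at hab
    exact hX.2 _ hab

theorem adj_gr {B : SimpleGraph (Fin N)} {n i : ℕ} {X : Finset (Fin n × Fin n)} (hX : SI X)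
    (hB : Low B (i * n)) : adj (gr B n i X) = xin (labB B n i) X := by
  classical
  funext p
  obtain ⟨u, v⟩ := p
  rw [xin, labB]
  by_cases h : (i * n ≤ u.val ∧ u.val < i * n + n) ∧ (i * n ≤ v.val ∧ v.val < i * n + n)
  · rw [dif_pos h]
    simp only [adj]
    have h1 : (gr B n i X).Adj u v ↔ ((⟨u.val - i * n, by omega⟩, ⟨v.val - i * n, by omega⟩) :
        Fin n × Fin n) ∈ X := by
      rw [gr_adj hX]
      constructor
      · rintro (h2 | ⟨a, b, hab, h2, h3⟩)
        · exact absurd (hB u v h2) (by omega)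
        · have e1 : (⟨u.val - i * n, by omega⟩ : Fin n) = a := Fin.ext (by simp; omega)
          have e2 : (⟨v.val - i * n, by omega⟩ : Fin n) = b := Fin.ext (by simp; omega)
          rw [e1, e2]
          exact hab
      · intro h2
        exact Or.inr ⟨_, _, h2, by simp; omega, by simp; omega⟩
    by_cases h2 : (gr B n i X).Adj u v
    · rw [if_pos h2, if_pos (h1.1 h2)]
    · rw [if_neg h2, if_neg (fun h3 => h2 (h1.2 h3))]
  · rw [dif_neg h]
    simp only [adj]
    have h1 : (gr B n i X).Adj u v ↔ B.Adj u v := by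
      rw [gr_adj hX]
      refine ⟨?_, Or.inl⟩
      rintro (h2 | ⟨a, b, _, h2, h3⟩)
      · exact h2
      · exfalso
        apply h
        have := a.isLt
        have := b.isLt
        omega
    by_cases h2 : (gr B n i X).Adj u v
    · rw [if_pos h2, if_pos (h1.1 h2)]
    · rw [if_neg h2, if_neg (fun h3 => h2 (h1.2 h3))]

theorem le_gr {B : SimpleGraph (Fin N)} {n i : ℕ} {X : Finset (Fin n × Fin n)} :
    adj B ≤ adj (gr B n i X) := by
  classical
  intro p
  simp only [adj]
  by_cases h : B.Adj p.1 p.2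
  · have h1 : (gr B n i X).Adj p.1 p.2 := by
      rw [gr, SimpleGraph.sup_adj]
      exact Or.inl h
    rw [if_pos h, if_pos h1]
  · rw [if_neg h]
    split_ifs <;> norm_num

/-- two-colourable -/
def Bip (B : SimpleGraph (Fin N)) : Prop := ∃ c : Fin N → Bool, ∀ u v, B.Adj u v → c u ≠ c v

theorem Bip.cliqueFree {B : SimpleGraph (Fin N)} (h : Bip B) : B.CliqueFree 3 := by
  obtain ⟨c, hc⟩ := h
  have h1 : B.Colorable 2 := by
    rw [SimpleGraph.colorable_iff_exists_bdd_nat_coloring]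
    refine ⟨⟨fun v => if c v then 1 else 0, ?_⟩, ?_⟩
    · intro u v huv
      have h2 := hc u v huv
      simp only [SimpleGraph.top_adj, ne_eq]
      cases hu : c u <;> cases hv : c v <;> simp_all
    · intro v
      change (if c v then 1 else 0) < 2
      split_ifs <;> norm_num
  exact h1.cliqueFree (by norm_num)

theorem bip_gr {B : SimpleGraph (Fin N)} {n i : ℕ} (hB : Low B (i * n)) (h : Bip B)
    (χ : Fin n → Bool) : Bip (gr B n i (sepX χ)) := by
  classical
  obtain ⟨c, hc⟩ := h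
  refine ⟨fun v => if h : i * n ≤ v.val ∧ v.val < i * n + n then χ ⟨v.val - i * n, by omega⟩
    else c v, ?_⟩
  intro u v huv
  rw [gr_adj (si_sepX χ)] at huv
  rcases huv with h1 | ⟨a, b, hab, h1, h2⟩
  · have h2 := hB u v h1
    have h3 := hB v u h1.symm
    have e1 : ¬ (i * n ≤ u.val ∧ u.val < i * n + n) := by omega
    have e2 : ¬ (i * n ≤ v.val ∧ v.val < i * n + n) := by omega
    simp only [dif_neg e1, dif_neg e2]
    exact hc u v h1
  · have ha := a.isLt
    have hb := b.isLt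
    have e1 : i * n ≤ u.val ∧ u.val < i * n + n := by omega
    have e2 : i * n ≤ v.val ∧ v.val < i * n + n := by omega
    simp only [dif_pos e1, dif_pos e2]
    have e3 : (⟨u.val - i * n, by omega⟩ : Fin n) = a := Fin.ext (by simp; omega)
    have e4 : (⟨v.val - i * n, by omega⟩ : Fin n) = b := Fin.ext (by simp; omega)
    rw [e3, e4]
    exact mem_sepX.1 hab

theorem low_gr {B : SimpleGraph (Fin N)} {n i : ℕ} (hB : Low B (i * n)) {X : Finset (Fin n × Fin n)}
    (hX : SI X) : Low (gr B n i X) ((i + 1) * n) := by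
  intro u v huv
  rw [gr_adj hX] at huv
  have h0 : (i + 1) * n = i * n + n := by ring
  rcases huv with h1 | ⟨a, b, _, h1, _⟩
  · have := hB u v h1
    omega
  · have := a.isLt
    omega

theorem triangle_gr {B : SimpleGraph (Fin N)} {n i : ℕ} (hN : (i + 1) * n ≤ N)
    {t : Fin n × Fin n × Fin n} (ht : t ∈ Dist (Fin n)) :
    ¬ (gr B n i (edg true t)).CliqueFree 3 := by
  classical
  have hX := si_edg ht true
  obtain ⟨a, b, c⟩ := t
  have h0 : (i + 1) * n = i * n + n := by ring
  have ha := a.isLt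
  have hb := b.isLt
  have hc := c.isLt
  rw [SimpleGraph.CliqueFree]
  push Not
  refine ⟨{⟨i * n + a, by omega⟩, ⟨i * n + b, by omega⟩, ⟨i * n + c, by omega⟩}, ?_⟩
  rw [SimpleGraph.is3Clique_triple_iff, gr_adj hX, gr_adj hX, gr_adj hX]
  refine ⟨Or.inr ⟨a, b, ?_, rfl, rfl⟩, Or.inr ⟨a, c, ?_, rfl, rfl⟩, Or.inr ⟨b, c, ?_, rfl, rfl⟩⟩ <;>
    simp [edg]

section Rand

variable {w : ℕ} {Ω : Type} [Fintype Ω] (p : Ω → ℝ) (A : Ω → Alg (Fin N × Fin N) w Bool)
  (σ : Ω → Mem w)

/-- the potential -/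
noncomputable def pot (B : SimpleGraph (Fin N)) : ℝ :=
  ∑ ω, p ω * ((A ω).idx (adj B) (σ ω) : ℝ)

open Classical in
/-- the colourings which lead to another leaf -/
noncomputable def chg (B : SimpleGraph (Fin N)) (n i : ℕ) (ω : Ω) : Finset (Fin n → Bool) :=
  {χ | (A ω).idx (adj (gr B n i (sepX χ))) (σ ω) ≠ (A ω).idx (adj B) (σ ω)}

open Classical in
/-- There is a background and a block such that the leaf changes rarely. -/
theorem exists_block (hp : ∀ ω, 0 ≤ p ω) (hp1 : ∑ ω, p ω = 1) {ℓ q : ℕ} (hq : 1 ≤ q)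
    (hℓ : ∀ ω, (A ω).leaves ≤ ℓ) (n : ℕ) :
    ∃ i < ℓ * q, ∃ B : SimpleGraph (Fin N), Low B (i * n) ∧ Bip B ∧
      ∑ ω, p ω * (#(chg A σ B n i ω) : ℝ) < 2 ^ n / q := by
  by_contra hcon
  push Not at hcon
  have key : ∀ M ≤ ℓ * q, ∃ B : SimpleGraph (Fin N), Low B (M * n) ∧ Bip B ∧
      (M : ℝ) / q ≤ pot p A σ B := by
    intro M
    induction M with
    | zero =>
      intro _
      refine ⟨⊥, ?_, ⟨fun _ => true, ?_⟩, ?_⟩
      · intro u v h
        simp at h
      · intro u v h
        simp at h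
      · simp only [Nat.cast_zero, zero_div, pot]
        exact sum_nonneg (fun ω _ => mul_nonneg (hp ω) (Nat.cast_nonneg _))
    | succ M ih =>
      intro hM
      obtain ⟨B, h1, h2, h3⟩ := ih (by omega)
      have h4 := hcon M (by omega) B h1 h2
      -- an average colouring
      have h5 : ∃ χ : Fin n → Bool, (1 : ℝ) / q ≤ ∑ ω, p ω *
          (if (A ω).idx (adj (gr B n M (sepX χ))) (σ ω) ≠ (A ω).idx (adj B) (σ ω) then (1 : ℝ)
            else 0) := by
        by_contra hcon2
        push Not at hcon2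
        have h6 : ∑ ω, p ω * (#(chg A σ B n M ω) : ℝ) = ∑ χ : Fin n → Bool, ∑ ω, p ω *
          (if (A ω).idx (adj (gr B n M (sepX χ))) (σ ω) ≠ (A ω).idx (adj B) (σ ω) then (1 : ℝ)
            else 0) := by
          rw [sum_comm]
          apply sum_congr rfl
          intro ω _
          rw [← mul_sum]
          congr 1
          rw [chg, card_filter]
          push_cast
          rfl
        have h7 : ∑ χ : Fin n → Bool, ∑ ω, p ω *
          (if (A ω).idx (adj (gr B n M (sepX χ))) (σ ω) ≠ (A ω).idx (adj B) (σ ω) then (1 : ℝ)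
            else 0) < ∑ _χ : Fin n → Bool, (1 : ℝ) / q :=
          sum_lt_sum_of_nonempty univ_nonempty (fun χ _ => hcon2 χ)
        rw [sum_const, card_univ, Fintype.card_fun, Fintype.card_bool, Fintype.card_fin,
          nsmul_eq_mul] at h7
        rw [h6] at h4
        push_cast at h7
        rw [mul_one_div] at h7
        exact absurd h7 (not_lt.2 h4)
      obtain ⟨χ, hχ⟩ := h5
      refine ⟨gr B n M (sepX χ), low_gr h1 (si_sepX χ), bip_gr h1 h2 χ, ?_⟩
      have h8 : pot p A σ B + ∑ ω, p ω *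
          (if (A ω).idx (adj (gr B n M (sepX χ))) (σ ω) ≠ (A ω).idx (adj B) (σ ω) then (1 : ℝ)
            else 0) ≤ pot p A σ (gr B n M (sepX χ)) := by
        rw [pot, pot, ← sum_add_distrib]
        apply sum_le_sum
        intro ω _
        rw [← mul_add]
        apply mul_le_mul_of_nonneg_left _ (hp ω)
        have h9 := (A ω).idx_mono (le_gr (B := B) (n := n) (i := M) (X := sepX χ))
          (le_refl (σ ω))
        split_ifs with h10
        · have h11 : (A ω).idx (adj B) (σ ω) + 1 ≤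
              (A ω).idx (adj (gr B n M (sepX χ))) (σ ω) := by omega
          exact_mod_cast h11
        · rw [add_zero]
          exact_mod_cast h9
      have h9 : ((M + 1 : ℕ) : ℝ) / q = (M : ℝ) / q + 1 / q := by
        push_cast
        ring
      rw [h9]
      linarith
  obtain ⟨B, _, _, h3⟩ := key (ℓ * q) le_rfl
  have h4 : (((ℓ * q : ℕ) : ℝ)) / q = ℓ := by
    push_cast
    have : (q : ℝ) ≠ 0 := by
      have : (1 : ℝ) ≤ q := by exact_mod_cast hq
      linarith
    field_simp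
  rw [h4] at h3
  have h5 : ∀ ω, ((A ω).idx (adj B) (σ ω) : ℝ) ≤ (ℓ : ℝ) - 1 := by
    intro ω
    have h6 := (A ω).idx_lt (adj B) (σ ω)
    have h7 := hℓ ω
    have h8 : (A ω).idx (adj B) (σ ω) + 1 ≤ ℓ := by omega
    have h9 : (((A ω).idx (adj B) (σ ω) : ℕ) : ℝ) + 1 ≤ ℓ := by exact_mod_cast h8
    linarith
  have h6 : pot p A σ B ≤ (ℓ : ℝ) - 1 := by
    rw [pot]
    calc _ ≤ ∑ ω, p ω * ((ℓ : ℝ) - 1) :=
          sum_le_sum (fun ω _ => mul_le_mul_of_nonneg_left (h5 ω) (hp ω))
      _ = _ := by rw [← sum_mul, hp1, one_mul]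
  linarith

end Rand

end Pool.Agent.L5helper51.WG
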