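import Mathlib

/-!
# Counting colourings
-/

namespace Pool.Agent.L5helper51.WG

open Finset

variable {U : Type*} [Fintype U] [DecidableEq U]

/-- Constraints `χ (y i) = χ (x i)` with different `y i` are independent. -/
theorem count_eq {ι : Type*} [DecidableEq ι] (x y : ι → U) (I : Finset ι)
    (hy : ∀ i ∈ I, ∀ k ∈ I, i ≠ k → y i ≠ y k) (hx : ∀ i ∈ I, ∀ k ∈ I, x i ≠ y k) :
    2 ^ #I * #{χ : U → Bool | ∀ i ∈ I, χ (y i) = χ (x i)} ≤ 2 ^ Fintype.card U := by
  induction I using Finset.induction_on with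
  | empty => simp
  | insert j J hj ih =>
    have h1 := ih (fun i hi k hk => hy i (mem_insert_of_mem hi) k (mem_insert_of_mem hk))
      (fun i hi k hk => hx i (mem_insert_of_mem hi) k (mem_insert_of_mem hk))
    have hjj := mem_insert_self j J
    have hRj : x j ≠ y j := hx j hjj j hjj
    set C : (U → Bool) → Prop := fun χ => ∀ i ∈ J, χ (y i) = χ (x i) with hC
    have key : #{χ : U → Bool | C χ ∧ χ (y j) = χ (x j)} ≤
        #{χ : U → Bool | C χ ∧ ¬ χ (y j) = χ (x j)} := by
      apply card_le_card_of_injOn (fun χ => Function.update χ (y j) (!χ (y j)))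
      · intro χ hχ
        simp only [coe_filter, mem_univ, true_and, Set.mem_ofPred_eq] at hχ ⊢
        obtain ⟨h2, h3⟩ := hχ
        refine ⟨?_, ?_⟩
        · intro i hi
          have hi' : i ∈ insert j J := mem_insert_of_mem hi
          have h4 : y i ≠ y j := hy i hi' j hjj (fun h => hj (h ▸ hi))
          have h5 : x i ≠ y j := hx i hi' j hjj
          rw [Function.update_of_ne h4, Function.update_of_ne h5]
          exact h2 i hi
        · rw [Function.update_self, Function.update_of_ne hRj, ← h3]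
          cases χ (y j) <;> simp
      · intro χ _ χ' _ h
        funext i
        have h6 := congrFun h i
        by_cases hi : i = y j
        · subst hi
          simp only [Function.update_self] at h6
          exact Bool.not_inj h6
        · simpa only [Function.update_of_ne hi] using h6
    have hsum : #{χ : U → Bool | C χ ∧ χ (y j) = χ (x j)} +
        #{χ : U → Bool | C χ ∧ ¬ χ (y j) = χ (x j)} = #{χ : U → Bool | C χ} := by
      rw [← card_filter_add_card_filter_not (s := ({χ : U → Bool | C χ} : Finset _))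
        (fun χ => χ (y j) = χ (x j)), filter_filter, filter_filter]
    have e : #{χ : U → Bool | ∀ i ∈ insert j J, χ (y i) = χ (x i)} =
        #{χ : U → Bool | C χ ∧ χ (y j) = χ (x j)} := by
      congr 1
      ext χ
      simp only [mem_filter, mem_univ, true_and, mem_insert, forall_eq_or_imp, hC]
      tauto
    rw [e, card_insert_of_notMem hj, pow_succ]
    calc 2 ^ #J * 2 * #{χ : U → Bool | C χ ∧ χ (y j) = χ (x j)}
        = 2 ^ #J * (2 * #{χ : U → Bool | C χ ∧ χ (y j) = χ (x j)}) := by ring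
      _ ≤ 2 ^ #J * #{χ : U → Bool | C χ} := Nat.mul_le_mul_left _ (by omega)
      _ ≤ _ := h1

/-- Patterns on disjoint pairs are independent. -/
theorem count_pat {ι : Type*} [DecidableEq ι] (x y z : ι → U) (p q : ι → Bool) (I : Finset ι)
    (hyz : ∀ i ∈ I, y i ≠ z i)
    (hy : ∀ i ∈ I, ∀ k ∈ I, i ≠ k → y i ≠ y k ∧ y i ≠ z k)
    (hz : ∀ i ∈ I, ∀ k ∈ I, i ≠ k → z i ≠ y k ∧ z i ≠ z k)
    (hx : ∀ i ∈ I, ∀ k ∈ I, x i ≠ y k ∧ x i ≠ z k) :
    4 ^ #I * #{χ : U → Bool | ∀ i ∈ I, ¬ (χ (y i) = (χ (x i) ^^ p i) ∧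
      χ (z i) = (χ (x i) ^^ q i))} ≤ 3 ^ #I * 2 ^ Fintype.card U := by
  induction I using Finset.induction_on with
  | empty => simp
  | insert j J hj ih =>
    have h1 := ih (fun i hi => hyz i (mem_insert_of_mem hi))
      (fun i hi k hk => hy i (mem_insert_of_mem hi) k (mem_insert_of_mem hk))
      (fun i hi k hk => hz i (mem_insert_of_mem hi) k (mem_insert_of_mem hk))
      (fun i hi k hk => hx i (mem_insert_of_mem hi) k (mem_insert_of_mem hk))
    set S : ι → (U → Bool) → Prop := fun i χ => χ (y i) = (χ (x i) ^^ p i) ∧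
      χ (z i) = (χ (x i) ^^ q i) with hS
    set C : (U → Bool) → Prop := fun χ => ∀ i ∈ J, ¬ S i χ with hC
    have hjj := mem_insert_self j J
    have hyzj := hyz j hjj
    have hxj := hx j hjj j hjj
    set u : (U → Bool) → (U → Bool) := fun χ =>
      Function.update (Function.update χ (y j) (χ (x j) ^^ p j)) (z j) (χ (x j) ^^ q j) with hu
    have hu1 : ∀ χ v, v ≠ y j → v ≠ z j → u χ v = χ v := by
      intro χ v h2 h3
      rw [hu]
      simp only
      rw [Function.update_of_ne h3, Function.update_of_ne h2]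
    have hu2 : ∀ χ, u χ (y j) = (χ (x j) ^^ p j) := by
      intro χ
      rw [hu]
      simp only
      rw [Function.update_of_ne hyzj, Function.update_self]
    have hu3 : ∀ χ, u χ (z j) = (χ (x j) ^^ q j) := by
      intro χ
      rw [hu]
      simp only
      rw [Function.update_self]
    have key : #{χ : U → Bool | C χ} ≤ 4 * #{χ : U → Bool | C χ ∧ S j χ} := by
      apply card_le_mul_card_image_of_maps_to (f := u)
      · intro χ hχ
        simp only [mem_filter, mem_univ, true_and] at hχ ⊢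
        refine ⟨?_, ?_⟩
        · intro i hi
          have hi' : i ∈ insert j J := mem_insert_of_mem hi
          have hij : i ≠ j := fun h => hj (h ▸ hi)
          have h2 := hy i hi' j hjj hij
          have h3 := hz i hi' j hjj hij
          have h4 := hx i hi' j hjj
          have h5 := hχ i hi
          simp only [hS] at h5 ⊢
          rw [hu1 χ (y i) h2.1 h2.2, hu1 χ (z i) h3.1 h3.2, hu1 χ (x i) h4.1 h4.2]
          exact h5
        · simp only [hS]
          rw [hu2, hu3, hu1 χ (x j) hxj.1 hxj.2]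
          exact ⟨rfl, rfl⟩
      · intro χ' _
        have h4 : #(univ : Finset (Bool × Bool)) = 4 := by rfl
        rw [← h4]
        apply card_le_card_of_injOn (fun χ => (χ (y j), χ (z j))) (fun _ _ => mem_univ _)
        intro χ hχ ψ hψ h
        simp only [coe_filter, mem_filter, mem_univ, true_and, Set.mem_ofPred_eq] at hχ hψ
        simp only [Prod.mk.injEq] at h
        funext v
        by_cases h5 : v = y j
        · rw [h5]; exact h.1
        · by_cases h6 : v = z j
          · rw [h6]; exact h.2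
          · rw [← hu1 χ v h5 h6, ← hu1 ψ v h5 h6, hχ.2, hψ.2]
    have hsum : #{χ : U → Bool | C χ ∧ S j χ} + #{χ : U → Bool | C χ ∧ ¬ S j χ} =
        #{χ : U → Bool | C χ} := by
      rw [← card_filter_add_card_filter_not (s := ({χ : U → Bool | C χ} : Finset _))
        (fun χ => S j χ), filter_filter, filter_filter]
    have e : #{χ : U → Bool | ∀ i ∈ insert j J, ¬ S i χ} =
        #{χ : U → Bool | C χ ∧ ¬ S j χ} := by
      congr 1
      ext χ
      simp only [mem_filter, mem_univ, true_and, mem_insert, forall_eq_or_imp, hC]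
      tauto
    change 4 ^ #(insert j J) * #{χ : U → Bool | ∀ i ∈ insert j J, ¬ S i χ} ≤ _
    rw [e, card_insert_of_notMem hj, pow_succ, pow_succ]
    calc 4 ^ #J * 4 * #{χ : U → Bool | C χ ∧ ¬ S j χ}
        = 4 ^ #J * (4 * #{χ : U → Bool | C χ ∧ ¬ S j χ}) := by ring
      _ ≤ 4 ^ #J * (3 * #{χ : U → Bool | C χ}) := Nat.mul_le_mul_left _ (by omega)
      _ = 3 * (4 ^ #J * #{χ : U → Bool | C χ}) := by ring
      _ ≤ 3 * (3 ^ #J * 2 ^ Fintype.card U) := Nat.mul_le_mul_left _ h1
      _ = _ := by ring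

/-- A family of sets without `p` pairwise disjoint members has a small hitting set. -/
theorem hit (F : Finset (Finset U)) (k p : ℕ) (hk : ∀ A ∈ F, #A ≤ k)
    (hne : ∀ A ∈ F, A.Nonempty)
    (hno : ∀ M ⊆ F, (∀ A ∈ M, ∀ B ∈ M, A ≠ B → Disjoint A B) → #M < p) :
    ∃ H : Finset U, #H ≤ k * p ∧ ∀ A ∈ F, ¬ Disjoint A H := by
  obtain ⟨M, hM, hmax⟩ : ∃ M ∈ F.powerset.filter (fun M => ∀ A ∈ M, ∀ B ∈ M, A ≠ B → Disjoint A B),
      ∀ M' ∈ F.powerset.filter (fun M => ∀ A ∈ M, ∀ B ∈ M, A ≠ B → Disjoint A B), #M' ≤ #M := by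
    apply exists_max_image _ (fun M : Finset (Finset U) => #M)
    exact ⟨∅, by simp⟩
  rw [mem_filter, mem_powerset] at hM
  refine ⟨M.biUnion id, ?_, ?_⟩
  · have h1 := hno M hM.1 hM.2
    calc #(M.biUnion id) ≤ ∑ A ∈ M, #(id A) := card_biUnion_le
      _ ≤ ∑ _A ∈ M, k := sum_le_sum (fun A hA => hk A (hM.1 hA))
      _ = #M * k := by rw [sum_const, smul_eq_mul]
      _ ≤ p * k := Nat.mul_le_mul_right _ h1.le
      _ = k * p := mul_comm _ _
  · intro A hA hd
    rw [disjoint_biUnion_right] at hd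
    have hAM : A ∉ M := by
      intro h
      have := hd A h
      simp only [id, disjoint_self, bot_eq_empty] at this
      exact (hne A hA).ne_empty this
    have h2 := hmax (insert A M) (by
      rw [mem_filter, mem_powerset]
      refine ⟨insert_subset hA hM.1, ?_⟩
      intro B hB C hC hBC
      rw [mem_insert] at hB hC
      rcases hB with rfl | hB <;> rcases hC with rfl | hC
      · exact absurd rfl hBC
      · exact hd C hC
      · exact (hd B hB).symm
      · exact hM.2 B hB C hC hBC)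
    rw [card_insert_of_notMem hAM] at h2
    omega

/-- Number of triangles (closed walks of length three) in a graph with few edges. -/
theorem closed_count (H : Finset (U × U)) :
    #{t : U × U × U | (t.1, t.2.1) ∈ H ∧ (t.2.1, t.2.2) ∈ H ∧ (t.1, t.2.2) ∈ H} ^ 2 ≤ #H ^ 3 := by
  classical
  set T : Finset (U × U × U) :=
    {t : U × U × U | (t.1, t.2.1) ∈ H ∧ (t.2.1, t.2.2) ∈ H ∧ (t.1, t.2.2) ∈ H} with hT
  have h1 : #T = ∑ e ∈ H, #{c : U | (e.2, c) ∈ H ∧ (e.1, c) ∈ H} := by
    have h2 : T = H.biUnion (fun e => ({c : U | (e.2, c) ∈ H ∧ (e.1, c) ∈ H} : Finset U).image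
        (fun c => (e.1, e.2, c))) := by
      ext ⟨a, b, c⟩
      simp only [hT, mem_filter, mem_univ, true_and, mem_biUnion, mem_image, Prod.mk.injEq,
        Prod.exists]
      constructor
      · rintro ⟨h3, h4, h5⟩
        exact ⟨a, b, h3, c, ⟨h4, h5⟩, rfl, rfl, rfl⟩
      · rintro ⟨a', b', h3, c', ⟨h4, h5⟩, rfl, rfl, rfl⟩
        exact ⟨h3, h4, h5⟩
    rw [h2, card_biUnion]
    · apply sum_congr rfl
      intro e _
      rw [card_image_of_injective]
      intro c c' h
      simpa using h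
    · rintro ⟨a, b⟩ _ ⟨a', b'⟩ _ hne
      rw [Function.onFun, disjoint_left]
      rintro ⟨x, y, z⟩ h3 h4
      simp only [mem_image, Prod.mk.injEq] at h3 h4
      obtain ⟨_, _, rfl, rfl, rfl⟩ := h3
      obtain ⟨_, _, h5, h6, _⟩ := h4
      exact hne (by rw [h5, h6])
  have h3 : (∑ e ∈ H, #{c : U | (e.2, c) ∈ H ∧ (e.1, c) ∈ H}) ^ 2 ≤
      #H * ∑ e ∈ H, #{c : U | (e.2, c) ∈ H ∧ (e.1, c) ∈ H} ^ 2 := sq_sum_le_card_mul_sum_sq
  have h4 : ∑ e ∈ H, #{c : U | (e.2, c) ∈ H ∧ (e.1, c) ∈ H} ^ 2 ≤ #H ^ 2 := by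
    have h5 : ∀ e ∈ H, #{c : U | (e.2, c) ∈ H ∧ (e.1, c) ∈ H} ^ 2 ≤
        #((H ×ˢ H).filter (fun q => q.1.1 = e.1 ∧ q.2.1 = e.2)) := by
      intro e _
      rw [sq, ← card_product]
      apply card_le_card_of_injOn (fun c => ((e.1, c.1), (e.2, c.2)))
      · rintro ⟨c, c'⟩ hc
        simp only [coe_product, coe_filter, mem_univ, true_and, Set.mem_prod,
          Set.mem_ofPred_eq] at hc
        simp only [coe_filter, mem_product, Set.mem_ofPred_eq]
        exact ⟨⟨hc.1.2, hc.2.1⟩, trivial, trivial⟩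
      · rintro ⟨c, c'⟩ _ ⟨d, d'⟩ _ h
        simp only [Prod.mk.injEq] at h
        rw [h.1.2, h.2.2]
    calc ∑ e ∈ H, #{c : U | (e.2, c) ∈ H ∧ (e.1, c) ∈ H} ^ 2
        ≤ ∑ e ∈ H, #((H ×ˢ H).filter (fun q => q.1.1 = e.1 ∧ q.2.1 = e.2)) := sum_le_sum h5
      _ = #(H.biUnion (fun e => (H ×ˢ H).filter (fun q => q.1.1 = e.1 ∧ q.2.1 = e.2))) := by
          rw [card_biUnion]
          rintro ⟨a, b⟩ _ ⟨a', b'⟩ _ hne
          rw [Function.onFun, disjoint_left]
          intro q h6 h7
          simp only [mem_filter] at h6 h7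
          exact hne (by rw [← h6.2.1, ← h6.2.2, ← h7.2.1, ← h7.2.2])
      _ ≤ #(H ×ˢ H) := by
          apply card_le_card
          intro q hq
          rw [mem_biUnion] at hq
          obtain ⟨e, _, h8⟩ := hq
          exact (mem_filter.1 h8).1
      _ = #H ^ 2 := by rw [card_product, sq]
  rw [h1]
  calc _ ≤ _ := h3
    _ ≤ #H * #H ^ 2 := Nat.mul_le_mul_left _ h4
    _ = _ := by ring

end Pool.Agent.L5helper51.WG
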