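import Mathlib

/-!
# Algorithms with wide nondecreasing operations
-/

namespace Pool.Agent.L5helper51.WG

/-- The contents of the memory: rows of `w` real numbers. -/
abbrev Mem (w : ℕ) := ℕ → Fin w → ℝ

/-- What is read: an entry `k` of the input or an entry `(a, j)` of the memory. -/
def rd {K : Type*} {w : ℕ} (x : K → ℝ) (σ : Mem w) : K ⊕ (ℕ × Fin w) → ℝ
  | .inl k => x k
  | .inr p => σ p.1 p.2

/-- An instruction reads `w` numbers, each of them an entry of the input or of the memory, and writes
`w` numbers, arbitrary nondecreasing functions of these numbers, to the row `dst` of the memory. -/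
structure Ins (K : Type*) (w : ℕ) where
  /-- the places which are read -/
  src : Fin w → K ⊕ (ℕ × Fin w)
  /-- the functions -/
  f : (Fin w → ℝ) → (Fin w → ℝ)
  /-- they are nondecreasing -/
  mono : Monotone f
  /-- the row which is written -/
  dst : ℕ

/-- The effect of an instruction on the memory, on input `x`. -/
def Ins.exec {K : Type*} {w : ℕ} (x : K → ℝ) (I : Ins K w) (σ : Mem w) : Mem w :=
  Function.update σ I.dst (I.f (fun i => rd x σ (I.src i)))

/-- An algorithm: it stops with an output, or executes an instruction, or compares a number with a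
threshold and branches. -/
inductive Alg (K : Type) (w : ℕ) (β : Type) : Type
  | leaf (o : β) : Alg K w β
  | op (I : Ins K w) (A : Alg K w β) : Alg K w β
  | test (s : K ⊕ (ℕ × Fin w)) (θ : ℝ) (lt ge : Alg K w β) : Alg K w β

variable {K : Type} {w : ℕ} {β : Type}

open Classical in
/-- The output and the final contents of the memory. -/
noncomputable def Alg.run (x : K → ℝ) : Alg K w β → Mem w → β × Mem w
  | .leaf o, σ => (o, σ)
  | .op I A, σ => A.run x (I.exec x σ)
  | .test s θ lt ge, σ => if rd x σ s < θ then lt.run x σ else ge.run x σ

/-- The number of leaves. -/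
def Alg.leaves : Alg K w β → ℕ
  | .leaf _ => 1
  | .op _ A => A.leaves
  | .test _ _ lt ge => lt.leaves + ge.leaves

/-- The largest number of instructions on a path. -/
def Alg.steps : Alg K w β → ℕ
  | .leaf _ => 0
  | .op _ A => A.steps + 1
  | .test _ _ lt ge => max lt.steps ge.steps

end Pool.Agent.L5helper51.WG
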