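import Pool.Agent.L5helper51.WG.Struct
import Pool.Agent.L5helper51.WG.Def

/-!
# The approximation of a list of instructions
-/

namespace Pool.Agent.L5helper51.WG

open Finset

variable {U : Type*} [Fintype U] [DecidableEq U] {L : ℕ} {K : Type*} {w : ℕ}

/-- the input defined by a set of present pairs -/
def xin (lab : K → (U × U) ⊕ ℝ) (X : Finset (U × U)) (k : K) : ℝ :=
  match lab k with
  | .inl p => if p ∈ X then 1 else 0
  | .inr c => c

/-- approximator of an input entry -/
def labApp : (U × U) ⊕ ℝ → App U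
  | .inl p => ⟨0, fun a b => if (a = p.1 ∧ b = p.2) ∨ (a = p.2 ∧ b = p.1) then 1 else 0⟩
  | .inr c => ⟨c, fun _ _ => c⟩

/-- approximator of a place -/
def srcApp (lab : K → (U × U) ⊕ ℝ) (M : ℕ → Fin w → App U) : K ⊕ (ℕ × Fin w) → App U
  | .inl k => labApp (lab k)
  | .inr p => M p.1 p.2

/-- the function of the colouring which is approximated -/
noncomputable def hfun (lab : K → (U × U) ⊕ ℝ) (M : ℕ → Fin w → App U) (I : Ins K w) (j : Fin w)
    (χ : U → Bool) : ℝ :=
  I.f (fun i => (srcApp lab M (I.src i)).ev (sepX χ)) j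

/-- the approximators after an instruction -/
noncomputable def nextApp (L : ℕ) (lab : K → (U × U) ⊕ ℝ) (M : ℕ → Fin w → App U) (I : Ins K w) :
    ℕ → Fin w → App U :=
  Function.update M I.dst (fun j => mk L (hfun lab M I j))

/-- good approximators -/
structure GoodA (L : ℕ) (A : App U) : Prop where
  symm : ∀ a b, A.val a b = A.val b a
  base : ∀ a b, A.base ≤ A.val a b
  card : #(act A) ≤ 4 * L ^ 2

theorem good_mk (hL : L ≤ Fintype.card U) (hL2 : 2 ≤ L) (h : (U → Bool) → ℝ) :
    GoodA L (mk L h) :=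
  ⟨val_symm L h, base_le_val L h, card_act hL hL2 h⟩

omit [DecidableEq U] in
theorem good_const (c : ℝ) : GoodA L (⟨c, fun _ _ => c⟩ : App U) := by
  refine ⟨fun _ _ => rfl, fun _ _ => le_rfl, ?_⟩
  have : act (⟨c, fun _ _ => c⟩ : App U) = ∅ := by
    ext ⟨a, b⟩
    simp [act]
  rw [this]
  simp

theorem good_lab (hL2 : 2 ≤ L) (p : (U × U) ⊕ ℝ) : GoodA L (labApp p) := by
  rcases p with p | c
  · refine ⟨?_, ?_, ?_⟩
    · intro a b
      simp only [labApp]
      congr 1
      rw [eq_iff_iff]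
      tauto
    · intro a b
      simp only [labApp]
      split_ifs <;> norm_num
    · have h1 : act (labApp (U := U) (.inl p)) ⊆ {(p.1, p.2), (p.2, p.1)} := by
        rintro ⟨a, b⟩ hab
        rw [mem_act] at hab
        simp only [labApp] at hab
        split_ifs at hab with h2
        · simp only [mem_insert, mem_singleton, Prod.mk.injEq]
          exact h2
        · exact absurd hab (lt_irrefl _)
      calc _ ≤ _ := card_le_card h1
        _ ≤ 2 := card_le_two
        _ ≤ 4 * L ^ 2 := by nlinarith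
  · exact good_const c

theorem good_src (hL2 : 2 ≤ L) (lab : K → (U × U) ⊕ ℝ) {M : ℕ → Fin w → App U}
    (hM : ∀ r j, GoodA L (M r j)) (s : K ⊕ (ℕ × Fin w)) : GoodA L (srcApp lab M s) := by
  rcases s with k | p
  · exact good_lab hL2 _
  · exact hM _ _

theorem good_next (hL : L ≤ Fintype.card U) (hL2 : 2 ≤ L) (lab : K → (U × U) ⊕ ℝ)
    {M : ℕ → Fin w → App U} (hM : ∀ r j, GoodA L (M r j)) (I : Ins K w) :
    ∀ r j, GoodA L (nextApp L lab M I r j) := by
  intro r j
  rw [nextApp]
  by_cases h : r = I.dst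
  · subst h
    rw [Function.update_self]
    exact good_mk hL hL2 _
  · rw [Function.update_of_ne h]
    exact hM r j

/-! ### Colourings -/

/-- the bad colourings of an instruction -/
noncomputable def badI (L : ℕ) (lab : K → (U × U) ⊕ ℝ) (M : ℕ → Fin w → App U) (I : Ins K w) :
    Finset (U → Bool) :=
  univ.biUnion (fun j => {χ : U → Bool | hfun lab M I j χ <
    (mk L (hfun lab M I j)).ev (sepX χ)})

theorem card_badI (lab : K → (U × U) ⊕ ℝ) (M : ℕ → Fin w → App U) (I : Ins K w) :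
    #(badI L lab M I) ≤ w * (d0 U L + Fintype.card U ^ 2 * d2 U L) := by
  refine card_biUnion_le.trans ?_
  calc _ ≤ ∑ _j : Fin w, (d0 U L + Fintype.card U ^ 2 * d2 U L) :=
        sum_le_sum (fun j _ => card_bad L _)
    _ = _ := by simp

/-- the approximation is below the truth -/
def Below (M : ℕ → Fin w → App U) (X : Finset (U × U)) (σ : Mem w) : Prop :=
  ∀ r j, (M r j).ev X ≤ σ r j

/-- the approximation is above the truth -/
def Above (M : ℕ → Fin w → App U) (X : Finset (U × U)) (σ : Mem w) : Prop :=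
  ∀ r j, σ r j ≤ (M r j).ev X

theorem below_src (lab : K → (U × U) ⊕ ℝ) {M : ℕ → Fin w → App U} {χ : U → Bool} {σ : Mem w}
    (h : Below M (sepX χ) σ) (s : K ⊕ (ℕ × Fin w)) :
    (srcApp lab M s).ev (sepX χ) ≤ rd (xin lab (sepX χ)) σ s := by
  rcases s with k | p
  · simp only [srcApp, rd, xin]
    rcases lab k with p | c
    · simp only [labApp]
      apply App.ev_le
      · simp only
        split_ifs <;> norm_num
      · intro a b hab
        simp only
        split_ifs with h1 h2
        · exact le_rfl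
        · exfalso
          apply h2
          rw [mem_sepX] at hab
          obtain ⟨p1, p2⟩ := p
          rw [mem_sepX]
          rcases h1 with ⟨rfl, rfl⟩ | ⟨rfl, rfl⟩
          · exact hab
          · exact hab.symm
        · norm_num
        · exact le_rfl
    · exact App.ev_le _ le_rfl (fun _ _ _ => le_rfl)
  · exact h _ _

theorem below_next (lab : K → (U × U) ⊕ ℝ) {M : ℕ → Fin w → App U} {χ : U → Bool} {σ : Mem w}
    (h : Below M (sepX χ) σ) (I : Ins K w) (hχ : χ ∉ badI L lab M I) :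
    Below (nextApp L lab M I) (sepX χ) (I.exec (xin lab (sepX χ)) σ) := by
  intro r j
  rw [nextApp, Ins.exec]
  by_cases hr : r = I.dst
  · subst hr
    rw [Function.update_self, Function.update_self]
    have h1 : (mk L (hfun lab M I j)).ev (sepX χ) ≤ hfun lab M I j χ := by
      by_contra h2
      apply hχ
      rw [badI, mem_biUnion]
      exact ⟨j, mem_univ _, mem_filter.2 ⟨mem_univ _, not_le.1 h2⟩⟩
    refine h1.trans ?_
    exact I.mono (fun i => below_src lab h (I.src i)) j
  · rw [Function.update_of_ne hr, Function.update_of_ne hr]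
    exact h r j

/-! ### Triples -/

/-- The present pairs of the test of a triple `a, b, c`: the edges `ab`, `bc`, and the edge `ac` if
`fl` is true. -/
def edg (fl : Bool) (t : U × U × U) : Finset (U × U) :=
  {(t.1, t.2.1), (t.2.1, t.1), (t.2.1, t.2.2), (t.2.2, t.2.1)} ∪
    if fl then {(t.1, t.2.2), (t.2.2, t.1)} else ∅

/-- triples of different vertices -/
def Dist (U : Type*) [Fintype U] [DecidableEq U] : Finset (U × U × U) :=
  {t | t.1 ≠ t.2.1 ∧ t.2.1 ≠ t.2.2 ∧ t.1 ≠ t.2.2}

/-- the lost triples of an instruction -/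
noncomputable def lostI (L : ℕ) (fl : Bool) (lab : K → (U × U) ⊕ ℝ) (M : ℕ → Fin w → App U)
    (I : Ins K w) : Finset (U × U × U) :=
  {t ∈ Dist U | ∃ j, (mk L (hfun lab M I j)).ev (edg fl t) <
    I.f (fun i => (srcApp lab M (I.src i)).ev (edg fl t)) j}

omit [Fintype U] in
theorem above_src (lab : K → (U × U) ⊕ ℝ) {M : ℕ → Fin w → App U} {X : Finset (U × U)} {σ : Mem w}
    (h : Above M X σ) (s : K ⊕ (ℕ × Fin w)) :
    rd (xin lab X) σ s ≤ (srcApp lab M s).ev X := by
  rcases s with k | p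
  · simp only [srcApp, rd, xin]
    rcases lab k with p | c
    · simp only [labApp]
      split_ifs with h1
      · refine le_trans ?_ (App.val_le _ (a := p.1) (b := p.2) h1)
        simp
      · exact App.base_le (labApp (U := U) (.inl p)) X
    · exact App.base_le (⟨c, fun _ _ => c⟩ : App U) X
  · exact h _ _

theorem above_next {fl : Bool} (lab : K → (U × U) ⊕ ℝ) {M : ℕ → Fin w → App U} {t : U × U × U}
    {σ : Mem w} (h : Above M (edg fl t) σ) (I : Ins K w) (ht : t ∈ Dist U)
    (hl : t ∉ lostI L fl lab M I) :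
    Above (nextApp L lab M I) (edg fl t) (I.exec (xin lab (edg fl t)) σ) := by
  intro r j
  rw [nextApp, Ins.exec]
  by_cases hr : r = I.dst
  · subst hr
    rw [Function.update_self, Function.update_self]
    have h1 : I.f (fun i => (srcApp lab M (I.src i)).ev (edg fl t)) j ≤
        (mk L (hfun lab M I j)).ev (edg fl t) := by
      by_contra h2
      apply hl
      rw [lostI, mem_filter]
      exact ⟨ht, j, not_le.1 h2⟩
    refine le_trans ?_ h1
    exact I.mono (fun i => above_src lab h (I.src i)) j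
  · rw [Function.update_of_ne hr, Function.update_of_ne hr]
    exact h r j

/-- the active pairs of an instruction -/
noncomputable def actI (lab : K → (U × U) ⊕ ℝ) (M : ℕ → Fin w → App U) (I : Ins K w) :
    Finset (U × U) := univ.biUnion (fun i => act (srcApp lab M (I.src i)))

theorem lost_aux (hL : L ≤ Fintype.card U) (hL2 : 2 ≤ L) (lab : K → (U × U) ⊕ ℝ)
    {M : ℕ → Fin w → App U} (hM : ∀ r j, GoodA L (M r j)) (I : Ins K w) (j : Fin w)
    {X : Finset (U × U)} {x y z : U} (hxy : x ≠ y) (hyz : y ≠ z) (hxz : x ≠ z)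
    (hX : ∀ a b, (a, b) ∈ X → (a, b) ∈ actI lab M I →
      (a = x ∧ b = y) ∨ (a = y ∧ b = x) ∨ (a = y ∧ b = z) ∨ (a = z ∧ b = y))
    {t : ℝ} (ht : t ≤ I.f (fun i => (srcApp lab M (I.src i)).ev X) j)
    (h0 : (mk L (hfun lab M I j)).base < t)
    (h1 : (mk L (hfun lab M I j)).val x y < t) (h2 : (mk L (hfun lab M I j)).val y z < t) :
    Dng L (hfun lab M I j) x y z ∧ (x, y) ∈ actI lab M I ∧ (y, z) ∈ actI lab M I := by
  have hg : ∀ i, GoodA L (srcApp lab M (I.src i)) := fun i => good_src hL2 lab hM _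
  have hact : ∀ i a b, (srcApp lab M (I.src i)).base < (srcApp lab M (I.src i)).val a b →
      (a, b) ∈ actI lab M I := by
    intro i a b h
    rw [actI, mem_biUnion]
    exact ⟨i, mem_univ _, mem_act.2 h⟩
  have hsym : ∀ a b, (a, b) ∈ actI lab M I → (b, a) ∈ actI lab M I := by
    intro a b h
    rw [actI, mem_biUnion] at h ⊢
    obtain ⟨i, _, h⟩ := h
    refine ⟨i, mem_univ _, ?_⟩
    rw [mem_act] at h ⊢
    rwa [(hg i).symm]
  -- colourings which separate the active edges
  have key : ∀ χ : U → Bool, ((x, y) ∈ actI lab M I → χ x ≠ χ y) →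
      ((y, z) ∈ actI lab M I → χ y ≠ χ z) → t ≤ hfun lab M I j χ := by
    intro χ hc1 hc2
    refine ht.trans (I.mono ?_ j)
    intro i
    apply App.ev_le _ (App.base_le _ _)
    intro a b hab
    by_cases h3 : (srcApp lab M (I.src i)).base < (srcApp lab M (I.src i)).val a b
    · have h4 := hact i a b h3
      apply App.val_le
      rw [mem_sepX]
      rcases hX a b hab h4 with ⟨rfl, rfl⟩ | ⟨rfl, rfl⟩ | ⟨rfl, rfl⟩ | ⟨rfl, rfl⟩
      · exact hc1 h4
      · exact (hc1 (hsym _ _ h4)).symm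
      · exact hc2 h4
      · exact (hc2 (hsym _ _ h4)).symm
    · exact (not_lt.1 h3).trans (App.base_le _ _)
  have hne : ∀ (S : Finset (U → Bool)) (a b : U) (_ : a ≠ b),
      (∀ χ ∈ sepS a b, t ≤ hfun lab M I j χ) → t ≤ (mk L (hfun lab M I j)).val a b := by
    intro _ a b hab h3
    apply le_quant _ (d2_lt hL hL2 hab)
    have h4 : ({χ ∈ sepS a b | hfun lab M I j χ < t} : Finset _) = ∅ := by
      apply filter_false_of_mem
      intro χ hχ
      exact not_lt.2 (h3 χ hχ)
    rw [h4]
    simp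
  refine ⟨⟨hxy, hyz, hxz, t, h0, h1, h2, fun χ h3 h4 => key χ (fun _ => h3) (fun _ => h4)⟩, ?_, ?_⟩
  · by_contra h3
    refine absurd (hne ∅ y z hyz ?_) (not_le.2 h2)
    intro χ hχ
    exact key χ (fun h => absurd h h3) (fun _ => mem_sepS.1 hχ)
  · by_contra h3
    refine absurd (hne ∅ x y hxy ?_) (not_le.2 h1)
    intro χ hχ
    exact key χ (fun _ => mem_sepS.1 hχ) (fun h => absurd h h3)

/-- closed triples -/
def closedT (H : Finset (U × U)) : Finset (U × U × U) :=
  {t | (t.1, t.2.1) ∈ H ∧ (t.2.1, t.2.2) ∈ H ∧ (t.1, t.2.2) ∈ H}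

/-- all permutations of the triples of a set -/
def perms (E : Finset (U × U × U)) : Finset (U × U × U) :=
  E ∪ E.image (fun t => (t.1, t.2.2, t.2.1)) ∪ E.image (fun t => (t.2.1, t.1, t.2.2)) ∪
    E.image (fun t => (t.2.1, t.2.2, t.1)) ∪ E.image (fun t => (t.2.2, t.1, t.2.1)) ∪
    E.image (fun t => (t.2.2, t.2.1, t.1))

omit [Fintype U] in
theorem card_perms (E : Finset (U × U × U)) : #(perms E) ≤ 6 * #E := by
  have h1 : ∀ f : U × U × U → U × U × U, #(E.image f) ≤ #E := fun f => card_image_le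
  rw [perms]
  have a1 := h1 (fun t => (t.1, t.2.2, t.2.1))
  have a2 := h1 (fun t => (t.2.1, t.1, t.2.2))
  have a3 := h1 (fun t => (t.2.1, t.2.2, t.1))
  have a4 := h1 (fun t => (t.2.2, t.1, t.2.1))
  have a5 := h1 (fun t => (t.2.2, t.2.1, t.1))
  refine (card_union_le _ _).trans ?_
  have b4 := card_union_le (E ∪ E.image (fun t => (t.1, t.2.2, t.2.1)) ∪
    E.image (fun t => (t.2.1, t.1, t.2.2)) ∪ E.image (fun t => (t.2.1, t.2.2, t.1)))
    (E.image (fun t => (t.2.2, t.1, t.2.1)))
  have b3 := card_union_le (E ∪ E.image (fun t => (t.1, t.2.2, t.2.1)) ∪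
    E.image (fun t => (t.2.1, t.1, t.2.2))) (E.image (fun t => (t.2.1, t.2.2, t.1)))
  have b2 := card_union_le (E ∪ E.image (fun t => (t.1, t.2.2, t.2.1)))
    (E.image (fun t => (t.2.1, t.1, t.2.2)))
  have b1 := card_union_le E (E.image (fun t => (t.1, t.2.2, t.2.1)))
  omega

omit [Fintype U] in
theorem mem_perms {E : Finset (U × U × U)} {x y z : U} (h : (x, y, z) ∈ E) {a b c : U}
    (hp : (a, b, c) = (x, y, z) ∨ (a, b, c) = (x, z, y) ∨ (a, b, c) = (y, x, z) ∨
      (a, b, c) = (y, z, x) ∨ (a, b, c) = (z, x, y) ∨ (a, b, c) = (z, y, x)) :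
    (a, b, c) ∈ perms E := by
  simp only [perms, mem_union, mem_image]
  rcases hp with hp | hp | hp | hp | hp | hp
  · rw [hp]; simp [h]
  · exact Or.inl (Or.inl (Or.inl (Or.inl (Or.inr ⟨_, h, hp.symm⟩))))
  · exact Or.inl (Or.inl (Or.inl (Or.inr ⟨_, h, hp.symm⟩)))
  · exact Or.inl (Or.inl (Or.inr ⟨_, h, hp.symm⟩))
  · exact Or.inl (Or.inr ⟨_, h, hp.symm⟩)
  · exact Or.inr ⟨_, h, hp.symm⟩

open Classical in
/-- Few triples are lost. -/
theorem card_lostI (hL : L ≤ Fintype.card U) (hL2 : 2 ≤ L) (fl : Bool) (lab : K → (U × U) ⊕ ℝ)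
    {M : ℕ → Fin w → App U} (hM : ∀ r j, GoodA L (M r j)) (I : Ins K w) {b : ℕ} (hb : 1 ≤ b)
    (hw : w ≤ b ^ 2) : #(lostI L fl lab M I) ≤ 1655 * (b * L) ^ 3 := by
  have hg : ∀ i, GoodA L (srcApp lab M (I.src i)) := fun i => good_src hL2 lab hM _
  have hsym : ∀ a b, (a, b) ∈ actI lab M I → (b, a) ∈ actI lab M I := by
    intro a b h
    rw [actI, mem_biUnion] at h ⊢
    obtain ⟨i, _, h⟩ := h
    refine ⟨i, mem_univ _, ?_⟩
    rw [mem_act] at h ⊢
    rwa [(hg i).symm]
  choose D hD hDc using fun j => exists_D hL hL2 (hfun lab M I j)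
  set S := actI lab M I with hS
  set H : Finset (U × U) := S ∪ (univ.biUnion D ∪ (univ.biUnion D).image Prod.swap) with hH
  set E : Finset (U × U × U) := univ.biUnion (fun j => ((D j).filter (fun p => p.1 ≠ p.2)).biUnion
    (fun p => (pet L (hfun lab M I j) p.1 p.2).image (fun c => (p.1, p.2, c)))) with hE
  have hHsym : ∀ a b, (a, b) ∈ H → (b, a) ∈ H := by
    intro a b h
    rw [hH, mem_union, mem_union] at h ⊢
    rcases h with h | h | h
    · exact Or.inl (hsym _ _ h)
    · exact Or.inr (Or.inr (mem_image.2 ⟨(a, b), h, rfl⟩))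
    · obtain ⟨⟨c, d⟩, h1, h2⟩ := mem_image.1 h
      simp only [Prod.swap, Prod.mk.injEq] at h2
      obtain ⟨rfl, rfl⟩ := h2
      exact Or.inr (Or.inl h1)
  -- a dangerous path with active edges is in `H` or in `E`
  have main : ∀ j x y z, Dng L (hfun lab M I j) x y z → (x, y) ∈ S → (y, z) ∈ S →
      ((x, y) ∈ H ∧ (y, z) ∈ H ∧ (x, z) ∈ H) ∨
      (∃ u v, (u, v, z) ∈ E ∧ ((u = x ∧ v = y) ∨ (u = y ∧ v = x))) ∨
      (∃ u v, (u, v, x) ∈ E ∧ ((u = y ∧ v = z) ∨ (u = z ∧ v = y))) := by
    intro j x y z hd h1 h2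
    have hz1 : z ∈ pet L (hfun lab M I j) x y := by
      rw [pet, mem_filter]; exact ⟨mem_univ _, Or.inl hd⟩
    have hz2 : z ∈ pet L (hfun lab M I j) y x := by
      rw [pet, mem_filter]; exact ⟨mem_univ _, Or.inr hd⟩
    have hx1 : x ∈ pet L (hfun lab M I j) z y := by
      rw [pet, mem_filter]; exact ⟨mem_univ _, Or.inl hd.symm⟩
    have hx2 : x ∈ pet L (hfun lab M I j) y z := by
      rw [pet, mem_filter]; exact ⟨mem_univ _, Or.inr hd.symm⟩
    obtain ⟨u, v, huv, hu, hv, huvD⟩ := hDc j x y z hd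
    have hEm : ∀ c, c ∈ pet L (hfun lab M I j) u v → (u, v, c) ∈ E := by
      intro c hc
      rw [hE, mem_biUnion]
      refine ⟨j, mem_univ _, ?_⟩
      rw [mem_biUnion]
      exact ⟨(u, v), mem_filter.2 ⟨huvD, huv⟩, mem_image.2 ⟨c, hc, rfl⟩⟩
    have hHm : (u, v) ∈ H := by
      rw [hH, mem_union, mem_union]
      exact Or.inr (Or.inl (mem_biUnion.2 ⟨j, mem_univ _, huvD⟩))
    have hS1 : (x, y) ∈ H := by rw [hH, mem_union]; exact Or.inl h1
    have hS2 : (y, z) ∈ H := by rw [hH, mem_union]; exact Or.inl h2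
    rcases hu with rfl | rfl | rfl <;> rcases hv with rfl | rfl | rfl
    · exact absurd rfl huv
    · exact Or.inr (Or.inl ⟨_, _, hEm _ hz1, Or.inl ⟨rfl, rfl⟩⟩)
    · exact Or.inl ⟨hS1, hS2, hHm⟩
    · exact Or.inr (Or.inl ⟨_, _, hEm _ hz2, Or.inr ⟨rfl, rfl⟩⟩)
    · exact absurd rfl huv
    · exact Or.inr (Or.inr ⟨_, _, hEm _ hx2, Or.inl ⟨rfl, rfl⟩⟩)
    · exact Or.inl ⟨hS1, hS2, hHsym _ _ hHm⟩
    · exact Or.inr (Or.inr ⟨_, _, hEm _ hx1, Or.inr ⟨rfl, rfl⟩⟩)
    · exact absurd rfl huv
  have hsub : lostI L fl lab M I ⊆ closedT H ∪ perms E := by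
    rintro ⟨a, b', c⟩ ht
    rw [lostI, mem_filter] at ht
    obtain ⟨hd, j, hj⟩ := ht
    simp only [Dist, mem_filter, mem_univ, true_and] at hd
    obtain ⟨hab, hbc, hac⟩ := hd
    set A := mk L (hfun lab M I j) with hA
    set t := I.f (fun i => (srcApp lab M (I.src i)).ev (edg fl (a, b', c))) j with ht
    have e0 : A.base < t := lt_of_le_of_lt (A.base_le _) hj
    have e1 : A.val a b' < t := by
      refine lt_of_le_of_lt (A.val_le ?_) hj
      simp [edg]
    have e2 : A.val b' c < t := by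
      refine lt_of_le_of_lt (A.val_le ?_) hj
      simp [edg]
    rw [mem_union]
    -- final step from `main`
    have fin1 : ∀ x y z, Dng L (hfun lab M I j) x y z → (x, y) ∈ S → (y, z) ∈ S →
        ((x = a ∧ y = b' ∧ z = c) ∨ (x = b' ∧ y = c ∧ z = a) ∨ (x = b' ∧ y = a ∧ z = c)) →
        (a, b', c) ∈ closedT H ∨ (a, b', c) ∈ perms E := by
      intro x y z hd h1 h2 h3
      rcases main j x y z hd h1 h2 with ⟨g1, g2, g3⟩ | ⟨u, v, hE', huv⟩ | ⟨u, v, hE', huv⟩
      · left
        simp only [closedT, mem_filter, mem_univ, true_and]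
        rcases h3 with ⟨rfl, rfl, rfl⟩ | ⟨rfl, rfl, rfl⟩ | ⟨rfl, rfl, rfl⟩
        · exact ⟨g1, g2, g3⟩
        · exact ⟨hHsym _ _ g3, g1, hHsym _ _ g2⟩
        · exact ⟨hHsym _ _ g1, g3, g2⟩
      · right
        apply mem_perms hE'
        rcases h3 with ⟨rfl, rfl, rfl⟩ | ⟨rfl, rfl, rfl⟩ | ⟨rfl, rfl, rfl⟩ <;>
          rcases huv with ⟨rfl, rfl⟩ | ⟨rfl, rfl⟩ <;> simp
      · right
        apply mem_perms hE'
        rcases h3 with ⟨rfl, rfl, rfl⟩ | ⟨rfl, rfl, rfl⟩ | ⟨rfl, rfl, rfl⟩ <;>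
          rcases huv with ⟨rfl, rfl⟩ | ⟨rfl, rfl⟩ <;> simp
    have hXm : ∀ p q, (p, q) ∈ edg fl (a, b', c) → ((p = a ∧ q = b') ∨ (p = b' ∧ q = a) ∨
        (p = b' ∧ q = c) ∨ (p = c ∧ q = b')) ∨ (fl = true ∧ ((p = a ∧ q = c) ∨ (p = c ∧ q = a))) := by
      intro p q hpq
      rw [edg, mem_union] at hpq
      rcases hpq with hpq | hpq
      · left
        simpa [Prod.mk.injEq] using hpq
      · right
        cases fl
        · simp at hpq
        · refine ⟨rfl, ?_⟩
          simpa [Prod.mk.injEq] using hpq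
    by_cases k3 : fl = true ∧ (a, c) ∈ S
    · obtain ⟨hfl, k3⟩ := k3
      have e3 : A.val a c < t := by
        refine lt_of_le_of_lt (A.val_le ?_) hj
        rw [hfl]
        simp [edg]
      by_cases k1 : (a, b') ∈ S
      · by_cases k2 : (b', c) ∈ S
        · left
          simp only [closedT, mem_filter, mem_univ, true_and]
          have : S ⊆ H := by rw [hH]; exact subset_union_left
          exact ⟨this k1, this k2, this k3⟩
        · -- contributing: `ab`, `ac`; the path `b a c`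
          have h5 := lost_aux hL hL2 lab hM I j (X := edg fl (a, b', c)) (x := b') (y := a) (z := c)
            hab.symm hac hbc (by
              intro p q hpq hS'
              rcases hXm p q hpq with h6 | h6
              · rcases h6 with h6 | h6 | ⟨rfl, rfl⟩ | ⟨rfl, rfl⟩
                · exact Or.inr (Or.inl h6)
                · exact Or.inl h6
                · exact absurd hS' k2
                · exact absurd (hsym _ _ hS') k2
              · rcases h6.2 with h7 | h7
                · exact Or.inr (Or.inr (Or.inl h7))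
                · exact Or.inr (Or.inr (Or.inr h7))) le_rfl e0
            (by rw [val_symm]; exact e1) e3
          exact fin1 b' a c h5.1 h5.2.1 h5.2.2 (Or.inr (Or.inr ⟨rfl, rfl, rfl⟩))
      · -- contributing: `bc`, `ac`; the path `b c a`
        have h5 := lost_aux hL hL2 lab hM I j (X := edg fl (a, b', c)) (x := b') (y := c) (z := a)
          hbc hac.symm hab.symm (by
            intro p q hpq hS'
            rcases hXm p q hpq with h6 | h6
            · rcases h6 with ⟨rfl, rfl⟩ | ⟨rfl, rfl⟩ | h6 | h6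
              · exact absurd hS' k1
              · exact absurd (hsym _ _ hS') k1
              · exact Or.inl h6
              · exact Or.inr (Or.inl h6)
            · rcases h6.2 with h7 | h7
              · exact Or.inr (Or.inr (Or.inr h7))
              · exact Or.inr (Or.inr (Or.inl h7))) le_rfl e0
          e2 (by rw [val_symm]; exact e3)
        exact fin1 b' c a h5.1 h5.2.1 h5.2.2 (Or.inr (Or.inl ⟨rfl, rfl, rfl⟩))
    · -- contributing: `ab`, `bc`
      have h5 := lost_aux hL hL2 lab hM I j (X := edg fl (a, b', c)) (x := a) (y := b') (z := c)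
        hab hbc hac (by
          intro p q hpq hS'
          rcases hXm p q hpq with h6 | ⟨h6, h7⟩
          · exact h6
          · exfalso
            apply k3
            refine ⟨h6, ?_⟩
            rcases h7 with ⟨rfl, rfl⟩ | ⟨rfl, rfl⟩
            · exact hS'
            · exact hsym _ _ hS') le_rfl e0 e1 e2
      exact fin1 a b' c h5.1 h5.2.1 h5.2.2 (Or.inl ⟨rfl, rfl, rfl⟩)
  -- counting
  have c1 : #S ≤ w * (4 * L ^ 2) := by
    refine card_biUnion_le.trans ?_
    calc _ ≤ ∑ _i : Fin w, 4 * L ^ 2 := sum_le_sum (fun i _ => (hg i).card)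
      _ = _ := by simp
  have c2 : #(univ.biUnion D) ≤ w * (54 * L ^ 2) := by
    refine card_biUnion_le.trans ?_
    calc _ ≤ ∑ _i : Fin w, 54 * L ^ 2 := sum_le_sum (fun i _ => hD i)
      _ = _ := by simp
  have c3 : #H ≤ (11 * (b * L)) ^ 2 := by
    have h1 := card_union_le S (univ.biUnion D ∪ (univ.biUnion D).image Prod.swap)
    have h2 := card_union_le (univ.biUnion D) ((univ.biUnion D).image Prod.swap)
    have h3 := card_image_le (s := univ.biUnion D) (f := Prod.swap)
    have h4 : w * L ^ 2 ≤ b ^ 2 * L ^ 2 := Nat.mul_le_mul_right _ hw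
    calc #H ≤ w * (4 * L ^ 2) + 2 * (w * (54 * L ^ 2)) := by rw [hH]; omega
      _ = 112 * (w * L ^ 2) := by ring
      _ ≤ 112 * (b ^ 2 * L ^ 2) := Nat.mul_le_mul_left _ h4
      _ ≤ (11 * (b * L)) ^ 2 := by nlinarith [Nat.zero_le (b ^ 2 * L ^ 2)]
  have c4 : #(closedT H) ≤ (11 * (b * L)) ^ 3 := by
    have h1 := closed_count H
    have h2 : #H ^ 3 ≤ ((11 * (b * L)) ^ 3) ^ 2 := by
      calc #H ^ 3 ≤ ((11 * (b * L)) ^ 2) ^ 3 := Nat.pow_le_pow_left c3 _
        _ = _ := by ring
    exact (Nat.pow_le_pow_iff_left (by norm_num)).1 (h1.trans h2)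
  have c5 : #E ≤ w * (54 * L ^ 2 * L) := by
    refine card_biUnion_le.trans ?_
    calc _ ≤ ∑ _i : Fin w, 54 * L ^ 2 * L := by
          apply sum_le_sum
          intro j _
          refine card_biUnion_le.trans ?_
          calc _ ≤ ∑ _p ∈ (D j).filter (fun p => p.1 ≠ p.2), L := by
                apply sum_le_sum
                intro p hp
                exact card_image_le.trans (card_pet hL hL2 _ (mem_filter.1 hp).2).le
            _ = #((D j).filter (fun p => p.1 ≠ p.2)) * L := by rw [sum_const, smul_eq_mul]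
            _ ≤ _ := Nat.mul_le_mul_right _ ((card_filter_le _ _).trans (hD j))
      _ = _ := by simp
  have c6 : w * (54 * L ^ 2 * L) ≤ 54 * (b * L) ^ 3 := by
    have h1 : w ≤ b ^ 3 := hw.trans (Nat.pow_le_pow_right hb (by norm_num))
    calc w * (54 * L ^ 2 * L) = 54 * (w * L ^ 3) := by ring
      _ ≤ 54 * (b ^ 3 * L ^ 3) := Nat.mul_le_mul_left _ (Nat.mul_le_mul_right _ h1)
      _ = _ := by ring
  calc #(lostI L fl lab M I) ≤ #(closedT H) + #(perms E) :=
        (card_le_card hsub).trans (card_union_le _ _)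
    _ ≤ (11 * (b * L)) ^ 3 + 6 * (54 * (b * L) ^ 3) :=
        Nat.add_le_add c4 ((card_perms E).trans (Nat.mul_le_mul_left _ (c5.trans c6)))
    _ = 1655 * (b * L) ^ 3 := by ring

end Pool.Agent.L5helper51.WG
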