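import Pool.Agent.L5helper51.WG.Chain

/-!
# Triangle detection: the lower bound
-/

namespace Pool.Agent.L5helper51.WG

open Finset

/-- the number of pairs which one place of the memory can separate -/
def B0 (n L b g : ℕ) : ℕ :=
  (g * (1655 * (b * L) ^ 3) + 12 * L ^ 2 * n) * 2 ^ n +
    #(Dist (Fin n)) * (g * (b ^ 2 * ((L + 1) * 2 ^ (n - L) + n ^ 2 * 2 ^ (n - L))))

theorem mem_fil2 {α : Type*} {P : α → Prop} {inst : DecidablePred P} {s : Finset α} {a : α} :
    a ∈ @Finset.filter α P inst s ↔ a ∈ s ∧ P a := Finset.mem_filter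

section

variable {N : ℕ}

open Classical in
theorem one_alg {w b n L g i : ℕ} (hb : 1 ≤ b) (hw : w ≤ b ^ 2) (hL : L ≤ n) (hL2 : 2 ≤ L)
    (A : Alg (Fin N × Fin N) w Bool) (σ : Mem w) (hg : A.steps ≤ g)
    {B : SimpleGraph (Fin N)} (hB : Low B (i * n)) (fl : Bool) :
    #{p ∈ Dist (Fin n) ×ˢ (univ : Finset (Fin n → Bool)) |
      A.idx (adj (gr B n i (edg fl p.1))) σ ≠ A.idx (adj (gr B n i (sepX p.2))) σ} ≤
      A.leaves * B0 n L b g + #(Dist (Fin n)) * #{χ : Fin n → Bool |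
        A.idx (adj (gr B n i (sepX χ))) σ ≠ A.idx (adj B) σ} := by
  set C : Finset (Fin n → Bool) := {χ | A.idx (adj (gr B n i (sepX χ))) σ = A.idx (adj B) σ}
    with hC
  set C' : Finset (Fin n → Bool) := {χ | A.idx (adj (gr B n i (sepX χ))) σ ≠ A.idx (adj B) σ}
    with hC'
  have hcard : Fintype.card (Fin n) = n := Fintype.card_fin n
  have h1 := count_idx (Dist (Fin n)) C (adj B) (fun t => adj (gr B n i (edg fl t)))
    (fun χ => adj (gr B n i (sepX χ))) σ g (B0 n L b g) (fun _ _ => le_gr) (fun _ _ => le_gr) (by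
      intro W s θ hW
      have h2 := pairs_le (U := Fin n) (L := L) (by rw [hcard]; exact hL) hL2 fl (labB B n i) hb hw
        σ (Dist (Fin n)) subset_rfl W s θ
      have h3 : ({p ∈ Dist (Fin n) ×ˢ C |
          θ ≤ rd (adj (gr B n i (edg fl p.1))) (execs (adj (gr B n i (edg fl p.1))) W σ) s ∧
          rd (adj (gr B n i (sepX p.2))) (execs (adj (gr B n i (sepX p.2))) W σ) s < θ} :
            Finset _) ⊆ ({p ∈ Dist (Fin n) ×ˢ (univ : Finset (Fin n → Bool)) |
        θ ≤ rd (xin (labB B n i) (edg fl p.1)) (execs (xin (labB B n i) (edg fl p.1)) W σ) s ∧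
        rd (xin (labB B n i) (sepX p.2)) (execs (xin (labB B n i) (sepX p.2)) W σ) s < θ} :
          Finset _) := by
        intro p hp
        rw [mem_filter, mem_product] at hp
        rw [adj_gr (si_edg hp.1.1 fl) hB, adj_gr (si_sepX _) hB] at hp
        rw [mem_filter, mem_product]
        exact ⟨⟨hp.1.1, mem_univ _⟩, hp.2⟩
      refine (card_le_card h3).trans (h2.trans ?_)
      rw [B0, hcard]
      refine Nat.add_le_add (Nat.mul_le_mul_right _ (Nat.add_le_add_right
        (Nat.mul_le_mul_right _ hW) _)) (Nat.mul_le_mul_left _ (Nat.mul_le_mul hW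
        (Nat.mul_le_mul hw ?_)))
      rw [d0, d2, hcard]) A [] (by simpa using hg) (by
      intro χ hχ
      rw [hC, mem_filter] at hχ
      rw [execs_nil, execs_nil]
      exact hχ.2.symm)
  have h2 : ({p ∈ Dist (Fin n) ×ˢ (univ : Finset (Fin n → Bool)) |
      A.idx (adj (gr B n i (edg fl p.1))) σ ≠ A.idx (adj (gr B n i (sepX p.2))) σ} : Finset _) ⊆
      ({p ∈ Dist (Fin n) ×ˢ C |
      A.idx (adj (gr B n i (edg fl p.1))) σ ≠ A.idx (adj (gr B n i (sepX p.2))) σ} : Finset _) ∪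
      Dist (Fin n) ×ˢ C' := by
    intro p hp
    rw [mem_filter, mem_product] at hp
    rw [mem_union]
    by_cases h3 : p.2 ∈ C
    · left
      rw [mem_filter, mem_product]
      exact ⟨⟨hp.1.1, h3⟩, hp.2⟩
    · right
      rw [mem_product]
      refine ⟨hp.1.1, ?_⟩
      rw [hC', mem_filter]
      refine ⟨mem_univ _, fun h4 => h3 ?_⟩
      rw [hC, mem_filter]
      exact ⟨mem_univ _, h4⟩
  refine (card_le_card h2).trans ((card_union_le _ _).trans ?_)
  rw [card_product]
  apply Nat.add_le_add_right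
  refine le_trans (card_le_card ?_) ((Nat.le_add_right _ _).trans h1)
  intro p hp
  exact mem_fil2.2 (mem_fil2.1 hp)

end

variable {N : ℕ}

open Classical in
theorem count_main {w b g ℓ q n L : ℕ} (hb : 1 ≤ b) (hw : w ≤ b ^ 2) (hq : 1 ≤ q)
    (hL : L ≤ n) (hL2 : 2 ≤ L) (hn : ℓ * q * n ≤ N)
    {Ω : Type} [Fintype Ω] (p : Ω → ℝ) (hp : ∀ ω, 0 ≤ p ω) (hp1 : ∑ ω, p ω = 1)
    (A : Ω → Alg (Fin N × Fin N) w Bool) (σ : Ω → Mem w)
    (hA : ∀ ω, (A ω).leaves ≤ ℓ ∧ (A ω).steps ≤ g)
    (hcorr : ∀ G : SimpleGraph (Fin N), (1 : ℝ) / 2 + 1 / q ≤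
      ∑ ω ∈ univ.filter (fun ω => ((A ω).run (adj G) (σ ω)).1 = true ↔ ¬ G.CliqueFree 3), p ω) :
    #(Dist (Fin n)) * 2 ^ n ≤ ℓ * q * B0 n L b g := by
  obtain ⟨i, hi, B, hB, hbip, hchg⟩ := exists_block p A σ hp hp1 hq (fun ω => (hA ω).1) n
  have hiN : (i + 1) * n ≤ N := le_trans (Nat.mul_le_mul_right _ hi) hn
  set T := Dist (Fin n) with hT
  set P : Fin n × Fin n × Fin n → SimpleGraph (Fin N) := fun t => gr B n i (edg true t) with hP
  set Q : (Fin n → Bool) → SimpleGraph (Fin N) := fun χ => gr B n i (sepX χ) with hQ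
  set D : Ω → Finset ((Fin n × Fin n × Fin n) × (Fin n → Bool)) := fun ω =>
    {z ∈ T ×ˢ (univ : Finset (Fin n → Bool)) |
      (A ω).idx (adj (P z.1)) (σ ω) ≠ (A ω).idx (adj (Q z.2)) (σ ω)} with hD
  have h1 : ∀ ω, #(D ω) ≤ ℓ * B0 n L b g + #T * #(chg A σ B n i ω) := by
    intro ω
    refine (one_alg hb hw hL hL2 (A ω) (σ ω) (hA ω).2 hB true).trans ?_
    exact Nat.add_le_add (Nat.mul_le_mul_right _ (hA ω).1) le_rfl
  -- correctness
  have h2 : ∀ t ∈ T, ∀ χ : Fin n → Bool, (2 : ℝ) / q ≤ ∑ ω, p ω *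
      (if (A ω).idx (adj (P t)) (σ ω) ≠ (A ω).idx (adj (Q χ)) (σ ω) then (1 : ℝ) else 0) := by
    intro t ht χ
    have c1 := hcorr (P t)
    have c2 := hcorr (Q χ)
    have k1 : ¬ (P t).CliqueFree 3 := triangle_gr hiN ht
    have k2 : (Q χ).CliqueFree 3 := (bip_gr hB hbip χ).cliqueFree
    rw [sum_filter] at c1 c2
    have h3 : ∑ ω, (if (((A ω).run (adj (P t)) (σ ω)).1 = true ↔ ¬ (P t).CliqueFree 3) then p ω
        else 0) + ∑ ω, (if (((A ω).run (adj (Q χ)) (σ ω)).1 = true ↔ ¬ (Q χ).CliqueFree 3) then p ω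
        else 0) ≤ ∑ ω, p ω + ∑ ω, p ω *
        (if (A ω).idx (adj (P t)) (σ ω) ≠ (A ω).idx (adj (Q χ)) (σ ω) then (1 : ℝ) else 0) := by
      rw [← sum_add_distrib, ← sum_add_distrib]
      apply sum_le_sum
      intro ω _
      have hpω := hp ω
      by_cases h4 : (A ω).idx (adj (P t)) (σ ω) ≠ (A ω).idx (adj (Q χ)) (σ ω)
      · rw [if_pos h4, mul_one]
        split_ifs <;> linarith
      · rw [if_neg h4, mul_zero, add_zero]
        push Not at h4
        have h5 : ((A ω).run (adj (P t)) (σ ω)).1 = ((A ω).run (adj (Q χ)) (σ ω)).1 := by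
          rw [Alg.run_eq, Alg.run_eq, h4]
        rw [h5]
        by_cases h6 : ((A ω).run (adj (Q χ)) (σ ω)).1 = true
        · have e2 : ¬ (((A ω).run (adj (Q χ)) (σ ω)).1 = true ↔ ¬ (Q χ).CliqueFree 3) := by
            simp [h6, k2]
          rw [if_neg e2, add_zero]
          split_ifs <;> linarith
        · have e1 : ¬ (((A ω).run (adj (Q χ)) (σ ω)).1 = true ↔ ¬ (P t).CliqueFree 3) := by
            simp [h6, k1]
          rw [if_neg e1, zero_add]
          split_ifs <;> linarith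
    have h4 : (2 : ℝ) / q = 1 / q + 1 / q := by ring
    rw [hp1] at h3
    linarith
  have h3 : (#T : ℝ) * 2 ^ n * (2 / q) ≤ ∑ ω, p ω * (#(D ω) : ℝ) := by
    have h4 : ∑ ω, p ω * (#(D ω) : ℝ) = ∑ z ∈ T ×ˢ (univ : Finset (Fin n → Bool)), ∑ ω, p ω *
      (if (A ω).idx (adj (P z.1)) (σ ω) ≠ (A ω).idx (adj (Q z.2)) (σ ω) then (1 : ℝ) else 0) := by
      rw [sum_comm]
      apply sum_congr rfl
      intro ω _
      rw [← mul_sum]
      congr 1
      rw [hD]
      simp only
      rw [card_filter]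
      push_cast
      rfl
    rw [h4]
    calc (#T : ℝ) * 2 ^ n * (2 / q) = ∑ _z ∈ T ×ˢ (univ : Finset (Fin n → Bool)), (2 : ℝ) / q := by
          rw [sum_const, card_product, card_univ, Fintype.card_fun, Fintype.card_bool,
            Fintype.card_fin, nsmul_eq_mul]
          push_cast
          ring
      _ ≤ _ := by
          apply sum_le_sum
          intro z hz
          exact h2 z.1 (mem_product.1 hz).1 z.2
  have h4 : ∑ ω, p ω * (#(D ω) : ℝ) ≤ (ℓ * B0 n L b g : ℕ) + #T * (2 ^ n / q) := by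
    calc ∑ ω, p ω * (#(D ω) : ℝ) ≤ ∑ ω, p ω * ((ℓ * B0 n L b g : ℕ) +
          (#T : ℝ) * (#(chg A σ B n i ω) : ℝ)) := by
          apply sum_le_sum
          intro ω _
          apply mul_le_mul_of_nonneg_left _ (hp ω)
          exact_mod_cast h1 ω
      _ = (∑ ω, p ω) * (ℓ * B0 n L b g : ℕ) + #T * ∑ ω, p ω * (#(chg A σ B n i ω) : ℝ) := by
          simp only [mul_add]
          rw [sum_add_distrib, ← sum_mul, mul_sum]
          congr 1
          apply sum_congr rfl
          intro ω _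
          ring
      _ ≤ _ := by
          rw [hp1, one_mul]
          have : (0 : ℝ) ≤ #T := Nat.cast_nonneg _
          have h5 := mul_le_mul_of_nonneg_left hchg.le this
          linarith
  have hqr : (0 : ℝ) < q := by
    have : (1 : ℝ) ≤ q := by exact_mod_cast hq
    linarith
  have h5 : (#T : ℝ) * 2 ^ n * (1 / q) ≤ (ℓ * B0 n L b g : ℕ) := by
    have e : (#T : ℝ) * 2 ^ n * (2 / q) = (#T : ℝ) * 2 ^ n * (1 / q) + #T * (2 ^ n / q) := by
      ring
    linarith
  have h6 : (#T : ℝ) * 2 ^ n ≤ q * (ℓ * B0 n L b g : ℕ) := by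
    calc (#T : ℝ) * 2 ^ n = q * ((#T : ℝ) * 2 ^ n * (1 / q)) := by field_simp
      _ ≤ _ := mul_le_mul_of_nonneg_left h5 hqr.le
  have h7 : #T * 2 ^ n ≤ q * (ℓ * B0 n L b g) := by exact_mod_cast h6
  calc #T * 2 ^ n ≤ q * (ℓ * B0 n L b g) := h7
    _ = _ := by ring

/-- the number of triples of different vertices -/
theorem card_Dist (n : ℕ) : n ^ 3 ≤ #(Dist (Fin n)) + 3 * n ^ 2 := by
  classical
  have h1 : (univ : Finset (Fin n × Fin n × Fin n)) ⊆ Dist (Fin n) ∪
      (((univ : Finset (Fin n × Fin n)).image (fun p => (p.1, p.1, p.2))) ∪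
      ((univ : Finset (Fin n × Fin n)).image (fun p => (p.1, p.2, p.2))) ∪
      ((univ : Finset (Fin n × Fin n)).image (fun p => (p.1, p.2, p.1)))) := by
    rintro ⟨a, b, c⟩ _
    simp only [Dist, mem_union, mem_filter, mem_univ, true_and, mem_image, Prod.exists,
      Prod.mk.injEq]
    by_cases h2 : a = b
    · right; left; left
      exact ⟨a, c, rfl, h2, rfl⟩
    · by_cases h3 : b = c
      · right; left; right
        exact ⟨a, b, rfl, rfl, h3⟩
      · by_cases h4 : a = c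
        · right; right
          exact ⟨a, b, rfl, rfl, h4⟩
        · left
          exact ⟨h2, h3, h4⟩
  have h2 := card_le_card h1
  have h3 : #(univ : Finset (Fin n × Fin n × Fin n)) = n ^ 3 := by
    rw [card_univ]
    simp only [Fintype.card_prod, Fintype.card_fin]
    ring
  rw [h3] at h2
  have e : #(univ : Finset (Fin n × Fin n)) = n ^ 2 := by
    rw [card_univ]
    simp only [Fintype.card_prod, Fintype.card_fin]
    ring
  have i1 := card_image_le (s := (univ : Finset (Fin n × Fin n))) (f := fun p => (p.1, p.1, p.2))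
  have i2 := card_image_le (s := (univ : Finset (Fin n × Fin n))) (f := fun p => (p.1, p.2, p.2))
  have i3 := card_image_le (s := (univ : Finset (Fin n × Fin n))) (f := fun p => (p.1, p.2, p.1))
  rw [e] at i1 i2 i3
  have u1 := card_union_le (Dist (Fin n))
      (((univ : Finset (Fin n × Fin n)).image (fun p => (p.1, p.1, p.2))) ∪
      ((univ : Finset (Fin n × Fin n)).image (fun p => (p.1, p.2, p.2))) ∪
      ((univ : Finset (Fin n × Fin n)).image (fun p => (p.1, p.2, p.1))))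
  have u2 := card_union_le
      (((univ : Finset (Fin n × Fin n)).image (fun p => (p.1, p.1, p.2))) ∪
      ((univ : Finset (Fin n × Fin n)).image (fun p => (p.1, p.2, p.2))))
      ((univ : Finset (Fin n × Fin n)).image (fun p => (p.1, p.2, p.1)))
  have u3 := card_union_le
      ((univ : Finset (Fin n × Fin n)).image (fun p => (p.1, p.1, p.2)))
      ((univ : Finset (Fin n × Fin n)).image (fun p => (p.1, p.2, p.2)))
  omega

end Pool.Agent.L5helper51.WG
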