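import Pool.Agent.L5helper51.WG.Main

/-!
# Choice of the parameters
-/

namespace Pool.Agent.L5helper51.WG

open Finset

theorem num {N b g D n L T c : ℕ} (hb : 1 ≤ b) (hg : 1 ≤ g) (hD : 1 ≤ D) (hc : c = Nat.clog 2 N)
    (hL : L = 8 * c + 4) (hn : n = N / D)
    (hT : n ^ 3 ≤ T + 3 * n ^ 2)
    (hmain : L ≤ n → T * 2 ^ n ≤ D * ((g * (1655 * (b * L) ^ 3) + 12 * L ^ 2 * n) * 2 ^ n +
      T * (g * (b ^ 2 * ((L + 1) * 2 ^ (n - L) + n ^ 2 * 2 ^ (n - L)))))) :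
    N ^ 3 ≤ 52960 * D ^ 5 * g * (b * L) ^ 3 := by
  have hL4 : 4 ≤ L := by omega
  have hDpos : 0 < D := hD
  have one : 1 ≤ D ^ 5 := Nat.one_le_pow _ _ hD
  have oneb : 1 ≤ (b * L) ^ 3 := Nat.one_le_pow _ _ (Nat.mul_pos hb (by omega))
  have hR : 1 ≤ 52960 * D ^ 5 * g * (b * L) ^ 3 := by
    have : 0 < 52960 * D ^ 5 * g * (b * L) ^ 3 := by positivity
    exact this
  -- trivial cases
  by_cases c1 : N ≤ 37
  · have h1 : N ^ 3 ≤ 37 ^ 3 := Nat.pow_le_pow_left c1 3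
    calc N ^ 3 ≤ 52960 * 1 * 1 * 1 := by omega
      _ ≤ _ := by gcongr
  push Not at c1
  by_cases c2 : N ^ 3 ≤ g
  · calc N ^ 3 ≤ 1 * 1 * g * 1 := by omega
      _ ≤ _ := by
        gcongr
        norm_num
  push Not at c2
  by_cases c3 : N ≤ b
  · calc N ^ 3 ≤ (b * L) ^ 3 := Nat.pow_le_pow_left (c3.trans (Nat.le_mul_of_pos_right _ (by omega))) 3
      _ = 1 * 1 * 1 * (b * L) ^ 3 := by ring
      _ ≤ _ := by
        gcongr
        norm_num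
  push Not at c3
  by_cases c4 : N ≤ D
  · calc N ^ 3 ≤ D ^ 3 := Nat.pow_le_pow_left c4 3
      _ ≤ D ^ 5 := Nat.pow_le_pow_right hD (by norm_num)
      _ = 1 * D ^ 5 * 1 * 1 := by ring
      _ ≤ _ := by
        gcongr
        norm_num
  push Not at c4
  have hND : N ≤ (n + 1) * D := by
    rw [hn]
    have := Nat.div_add_mod N D
    have h2 := Nat.mod_lt N hDpos
    nlinarith
  by_cases c5 : n < L
  · have h1 : N ≤ L * D := hND.trans (Nat.mul_le_mul_right _ c5)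
    calc N ^ 3 ≤ (L * D) ^ 3 := Nat.pow_le_pow_left h1 3
      _ = D ^ 3 * (1 * L) ^ 3 := by ring
      _ ≤ D ^ 5 * (b * L) ^ 3 := by
        gcongr
        norm_num
      _ = 1 * D ^ 5 * 1 * (b * L) ^ 3 := by ring
      _ ≤ _ := by
        gcongr
        norm_num
  push Not at c5
  have hm := hmain c5
  have hnN : n ≤ N := by rw [hn]; exact Nat.div_le_self _ _
  -- the error term is small
  have hside : 4 * (D * (g * (b ^ 2 * (L + 1 + n ^ 2)))) ≤ 2 ^ L := by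
    have h1 : N ≤ 2 ^ c := by rw [hc]; exact Nat.le_pow_clog (by norm_num) N
    have h2 : c ≤ N := by
      rw [hc]
      exact Nat.clog_le_of_le_pow (Nat.lt_two_pow_self).le
    have h3 : L + 1 + n ^ 2 ≤ 2 * N ^ 2 := by
      have : n ^ 2 ≤ N ^ 2 := Nat.pow_le_pow_left hnN 2
      have h4 : L + 1 ≤ N ^ 2 := by
        rw [hL]
        nlinarith
      omega
    have h4 : b ^ 2 ≤ N ^ 2 := Nat.pow_le_pow_left c3.le 2
    calc 4 * (D * (g * (b ^ 2 * (L + 1 + n ^ 2))))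
        ≤ 4 * (N * (N ^ 3 * (N ^ 2 * (2 * N ^ 2)))) := by gcongr
      _ = 8 * N ^ 8 := by ring
      _ ≤ 8 * (2 ^ c) ^ 8 := by gcongr
      _ = 2 ^ (8 * c + 3) := by
        rw [← pow_mul, pow_add, mul_comm c 8]
        ring
      _ ≤ 2 ^ L := Nat.pow_le_pow_right (by norm_num) (by omega)
  -- divide by `2 ^ n`
  have hm2 : 3 * T ≤ 4 * D * (g * (1655 * (b * L) ^ 3) + 12 * L ^ 2 * n) := by
    have e : 2 ^ n = 2 ^ L * 2 ^ (n - L) := by rw [← pow_add, Nat.add_sub_cancel' c5]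
    have h1 : T * 2 ^ L ≤ D * (g * (1655 * (b * L) ^ 3) + 12 * L ^ 2 * n) * 2 ^ L +
        T * (D * (g * (b ^ 2 * (L + 1 + n ^ 2)))) := by
      have h2 : (T * 2 ^ L) * 2 ^ (n - L) ≤ (D * (g * (1655 * (b * L) ^ 3) + 12 * L ^ 2 * n) * 2 ^ L
          + T * (D * (g * (b ^ 2 * (L + 1 + n ^ 2))))) * 2 ^ (n - L) := by
        calc (T * 2 ^ L) * 2 ^ (n - L) = T * 2 ^ n := by rw [e]; ring
          _ ≤ _ := hm
          _ = _ := by rw [e]; ring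
      exact Nat.le_of_mul_le_mul_right h2 (by positivity)
    have h3 : 4 * (T * (D * (g * (b ^ 2 * (L + 1 + n ^ 2))))) ≤ T * 2 ^ L := by
      calc _ = T * (4 * (D * (g * (b ^ 2 * (L + 1 + n ^ 2))))) := by ring
        _ ≤ _ := Nat.mul_le_mul_left _ hside
    have h4 : (3 * T) * 2 ^ L ≤ (4 * D * (g * (1655 * (b * L) ^ 3) + 12 * L ^ 2 * n)) * 2 ^ L := by
      have e2 : (4 * D * (g * (1655 * (b * L) ^ 3) + 12 * L ^ 2 * n)) * 2 ^ L =
        4 * (D * (g * (1655 * (b * L) ^ 3) + 12 * L ^ 2 * n) * 2 ^ L) := by ring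
      have e3 : (3 * T) * 2 ^ L = 3 * (T * 2 ^ L) := by ring
      rw [e2, e3]
      omega
    exact Nat.le_of_mul_le_mul_right h4 (by positivity)
  by_cases c6 : n < 6
  · -- then `L ≤ n < 6`, but `L ≥ 8`
    have h1 : 1 ≤ c := by
      rw [hc]
      exact Nat.clog_pos (by norm_num) (by omega)
    omega
  push Not at c6
  have hT2 : n ^ 3 ≤ 2 * T := by
    have : 6 * n ^ 2 ≤ n ^ 3 := by
      calc 6 * n ^ 2 ≤ n * n ^ 2 := Nat.mul_le_mul_right _ c6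
        _ = n ^ 3 := by ring
    omega
  have hn1 : 1 ≤ n := by omega
  by_cases c7 : 96 * (D * L ^ 2) ≤ n ^ 2
  · have h1 : 3 * n ^ 3 ≤ 13240 * (D * g * (b * L) ^ 3) + 96 * (D * L ^ 2) * n := by
      calc 3 * n ^ 3 ≤ 2 * (3 * T) := by omega
        _ ≤ 2 * (4 * D * (g * (1655 * (b * L) ^ 3) + 12 * L ^ 2 * n)) := Nat.mul_le_mul_left _ hm2
        _ = _ := by ring
    have h2 : 96 * (D * L ^ 2) * n ≤ n ^ 3 := by
      calc _ ≤ n ^ 2 * n := Nat.mul_le_mul_right _ c7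
        _ = _ := by ring
    have h3 : n ^ 3 ≤ 6620 * (D * g * (b * L) ^ 3) := by omega
    have h4 : N ≤ 2 * n * D := hND.trans (Nat.mul_le_mul_right _ (by omega))
    calc N ^ 3 ≤ (2 * n * D) ^ 3 := Nat.pow_le_pow_left h4 3
      _ = 8 * D ^ 3 * n ^ 3 := by ring
      _ ≤ 8 * D ^ 3 * (6620 * (D * g * (b * L) ^ 3)) := Nat.mul_le_mul_left _ h3
      _ = 52960 * D ^ 4 * g * (b * L) ^ 3 := by ring
      _ ≤ _ := by
        gcongr
        norm_num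
  · push Not at c7
    have h4 : N ≤ 2 * n * D := hND.trans (Nat.mul_le_mul_right _ (by omega))
    have h5 : N ^ 2 ≤ 384 * D ^ 3 * L ^ 2 := by
      calc N ^ 2 ≤ (2 * n * D) ^ 2 := Nat.pow_le_pow_left h4 2
        _ = 4 * D ^ 2 * n ^ 2 := by ring
        _ ≤ 4 * D ^ 2 * (96 * (D * L ^ 2)) := Nat.mul_le_mul_left _ c7.le
        _ = _ := by ring
    have h6 : (N ^ 3) ^ 2 ≤ (7525 * D ^ 5 * L ^ 3) ^ 2 := by
      calc (N ^ 3) ^ 2 = (N ^ 2) ^ 3 := by ring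
        _ ≤ (384 * D ^ 3 * L ^ 2) ^ 3 := Nat.pow_le_pow_left h5 3
        _ = 56623104 * D ^ 9 * L ^ 6 := by ring
        _ ≤ 56625625 * D ^ 10 * L ^ 6 := by
          gcongr
          · norm_num
          · norm_num
        _ = _ := by ring
    have h7 : N ^ 3 ≤ 7525 * D ^ 5 * L ^ 3 := (Nat.pow_le_pow_iff_left (by norm_num)).1 h6
    calc N ^ 3 ≤ 7525 * D ^ 5 * L ^ 3 := h7
      _ = 7525 * D ^ 5 * 1 * (1 * L) ^ 3 := by ring
      _ ≤ _ := by gcongr; norm_num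

theorem L_le {N : ℕ} (hN : 2 ≤ N) : 8 * Nat.clog 2 N + 4 ≤ 24 * Nat.log 2 N := by
  have h1 : 1 ≤ Nat.log 2 N := Nat.log_pos (by norm_num) hN
  have h2 : Nat.clog 2 N ≤ Nat.log 2 N + 1 := by
    apply Nat.clog_le_of_le_pow
    exact (Nat.lt_pow_succ_log_self (by norm_num) N).le
  omega

open Classical in
/-- The lower bound for triangle detection. -/
theorem tri_lower {N w b g ℓ q : ℕ} (hN : 2 ≤ N) (hb : 1 ≤ b) (hw : w ≤ b ^ 2) (hg : 1 ≤ g)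
    (hq : 1 ≤ q) {Ω : Type} [Fintype Ω] (p : Ω → ℝ) (hp : ∀ ω, 0 ≤ p ω) (hp1 : ∑ ω, p ω = 1)
    (A : Ω → Alg (Fin N × Fin N) w Bool) (σ : Ω → Mem w)
    (hA : ∀ ω, (A ω).leaves ≤ ℓ ∧ (A ω).steps ≤ g)
    (hcorr : ∀ G : SimpleGraph (Fin N), (1 : ℝ) / 2 + 1 / q ≤
      ∑ ω ∈ univ.filter (fun ω => ((A ω).run (adj G) (σ ω)).1 = true ↔ ¬ G.CliqueFree 3), p ω) :
    N ^ 3 ≤ 10 ^ 9 * (ℓ * q) ^ 5 * g * (b * Nat.log 2 N) ^ 3 := by
  have hℓ : 1 ≤ ℓ := by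
    have h1 : ∃ ω : Ω, True := by
      by_contra h
      push Not at h
      have : IsEmpty Ω := ⟨fun ω => (h ω).elim⟩
      simp at hp1
    obtain ⟨ω, _⟩ := h1
    have := (A ω).leaves_pos
    have := (hA ω).1
    omega
  have h1 := num (N := N) (b := b) (g := g) (D := ℓ * q) (n := N / (ℓ * q))
    (L := 8 * Nat.clog 2 N + 4) (T := #(Dist (Fin (N / (ℓ * q))))) hb hg (Nat.mul_pos hℓ hq) rfl rfl
    rfl (card_Dist _) (fun hL => count_main hb hw hq hL (by omega)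
      (Nat.mul_div_le N (ℓ * q)) p hp hp1 A σ hA hcorr)
  calc N ^ 3 ≤ _ := h1
    _ ≤ 52960 * (ℓ * q) ^ 5 * g * (b * (24 * Nat.log 2 N)) ^ 3 := by
        gcongr
        exact L_le hN
    _ = 732119040 * ((ℓ * q) ^ 5 * g * (b * Nat.log 2 N) ^ 3) := by ring
    _ ≤ 10 ^ 9 * ((ℓ * q) ^ 5 * g * (b * Nat.log 2 N) ^ 3) := by
        gcongr
        norm_num
    _ = _ := by ring

end Pool.Agent.L5helper51.WG
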