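import Pool.Agent.L5helper51.WG.Gate

/-!
# Lists of instructions and algorithms
-/

namespace Pool.Agent.L5helper51.WG

open Finset

/-- execute a list of instructions -/
def execs {K : Type*} {w : ℕ} (x : K → ℝ) (W : List (Ins K w)) (σ : Mem w) : Mem w :=
  W.foldl (fun σ I => I.exec x σ) σ

theorem execs_nil {K : Type*} {w : ℕ} (x : K → ℝ) (σ : Mem w) : execs x [] σ = σ := rfl

theorem execs_cons {K : Type*} {w : ℕ} (x : K → ℝ) (I : Ins K w) (W : List (Ins K w))
    (σ : Mem w) : execs x (I :: W) σ = execs x W (I.exec x σ) := rfl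

theorem execs_append {K : Type*} {w : ℕ} (x : K → ℝ) (W W' : List (Ins K w))
    (σ : Mem w) : execs x (W ++ W') σ = execs x W' (execs x W σ) := List.foldl_append

section Core

variable {U : Type*} [Fintype U] [DecidableEq U] {L : ℕ} {K : Type*} {w : ℕ}

/-- the approximators after a list of instructions -/
noncomputable def appR (L : ℕ) (lab : K → (U × U) ⊕ ℝ) (W : List (Ins K w))
    (M : ℕ → Fin w → App U) : ℕ → Fin w → App U :=
  W.foldl (fun M I => nextApp L lab M I) M

theorem good_appR (hL : L ≤ Fintype.card U) (hL2 : 2 ≤ L) (lab : K → (U × U) ⊕ ℝ) :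
    ∀ (W : List (Ins K w)) (M : ℕ → Fin w → App U), (∀ r j, GoodA L (M r j)) →
      ∀ r j, GoodA L (appR L lab W M r j)
  | [], _, hM => hM
  | I :: W, _, hM => good_appR hL hL2 lab W _ (good_next hL hL2 lab hM I)

theorem exists_bad (lab : K → (U × U) ⊕ ℝ) :
    ∀ (W : List (Ins K w)) (M : ℕ → Fin w → App U), ∃ Bd : Finset (U → Bool),
      #Bd ≤ W.length * (w * (d0 U L + Fintype.card U ^ 2 * d2 U L)) ∧
      ∀ χ ∉ Bd, ∀ σ, Below M (sepX χ) σ →
        Below (appR L lab W M) (sepX χ) (execs (xin lab (sepX χ)) W σ)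
  | [], M => ⟨∅, by simp, fun χ _ σ h => h⟩
  | I :: W, M => by
    obtain ⟨Bd, h1, h2⟩ := exists_bad lab W (nextApp L lab M I)
    refine ⟨badI L lab M I ∪ Bd, ?_, ?_⟩
    · refine (card_union_le _ _).trans ?_
      rw [List.length_cons, add_mul, one_mul, add_comm]
      exact Nat.add_le_add h1 (card_badI lab M I)
    · intro χ hχ σ hσ
      rw [mem_union, not_or] at hχ
      exact h2 χ hχ.2 _ (below_next lab hσ I hχ.1)

theorem exists_lost (hL : L ≤ Fintype.card U) (hL2 : 2 ≤ L) (fl : Bool)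
    (lab : K → (U × U) ⊕ ℝ) {b : ℕ} (hb : 1 ≤ b) (hw : w ≤ b ^ 2) :
    ∀ (W : List (Ins K w)) (M : ℕ → Fin w → App U), (∀ r j, GoodA L (M r j)) →
      ∃ Ls : Finset (U × U × U), #Ls ≤ W.length * (1655 * (b * L) ^ 3) ∧
      ∀ t ∈ Dist U, t ∉ Ls → ∀ σ, Above M (edg fl t) σ →
        Above (appR L lab W M) (edg fl t) (execs (xin lab (edg fl t)) W σ)
  | [], M, _ => ⟨∅, by simp, fun t _ _ σ h => h⟩
  | I :: W, M, hM => by
    obtain ⟨Ls, h1, h2⟩ := exists_lost hL hL2 fl lab hb hw W (nextApp L lab M I)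
      (good_next hL hL2 lab hM I)
    refine ⟨lostI L fl lab M I ∪ Ls, ?_, ?_⟩
    · refine (card_union_le _ _).trans ?_
      rw [List.length_cons, add_mul, one_mul, add_comm]
      exact Nat.add_le_add h1 (card_lostI hL hL2 fl lab hM I hb hw)
    · intro t ht hl σ hσ
      rw [mem_union, not_or] at hl
      exact h2 t ht hl.2 _ (above_next lab hσ I ht hl.1)

/-- initial approximators -/
def initA (σ : Mem w) (r : ℕ) (j : Fin w) : App U := ⟨σ r j, fun _ _ => σ r j⟩

theorem card_touch {A : App U} (hA : GoodA L A) (fl : Bool) :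
    #{t : U × U × U | ∃ p ∈ edg fl t, p ∈ act A} ≤ 12 * L ^ 2 * Fintype.card U := by
  have hs : ∀ a b, (a, b) ∈ act A → (b, a) ∈ act A := by
    intro a b h
    rw [mem_act] at h ⊢
    rwa [hA.symm]
  have h1 : ({t : U × U × U | ∃ p ∈ edg fl t, p ∈ act A} : Finset _) ⊆
      ((act A ×ˢ (univ : Finset U)).image (fun q => (q.1.1, q.1.2, q.2))) ∪
      ((act A ×ˢ (univ : Finset U)).image (fun q => (q.2, q.1.1, q.1.2))) ∪
      ((act A ×ˢ (univ : Finset U)).image (fun q => (q.1.1, q.2, q.1.2))) := by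
    rintro ⟨a, b, c⟩ ht
    rw [mem_filter] at ht
    obtain ⟨⟨p, q⟩, hp, hact⟩ := ht.2
    rw [mem_union, mem_union]
    have hXm : ((p = a ∧ q = b) ∨ (p = b ∧ q = a) ∨
        (p = b ∧ q = c) ∨ (p = c ∧ q = b)) ∨ ((p = a ∧ q = c) ∨ (p = c ∧ q = a)) := by
      rw [edg, mem_union] at hp
      rcases hp with hpq | hpq
      · left
        simpa [Prod.mk.injEq] using hpq
      · right
        cases fl
        · simp at hpq
        · simpa [Prod.mk.injEq] using hpq
    rcases hXm with (⟨rfl, rfl⟩ | ⟨rfl, rfl⟩ | ⟨rfl, rfl⟩ | ⟨rfl, rfl⟩) | (⟨rfl, rfl⟩ | ⟨rfl, rfl⟩)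
    · exact Or.inl (Or.inl (mem_image.2 ⟨((p, q), c), mem_product.2 ⟨hact, mem_univ _⟩, rfl⟩))
    · exact Or.inl (Or.inl (mem_image.2 ⟨((q, p), c), mem_product.2 ⟨hs _ _ hact, mem_univ _⟩,
        rfl⟩))
    · exact Or.inl (Or.inr (mem_image.2 ⟨((p, q), a), mem_product.2 ⟨hact, mem_univ _⟩, rfl⟩))
    · exact Or.inl (Or.inr (mem_image.2 ⟨((q, p), a), mem_product.2 ⟨hs _ _ hact, mem_univ _⟩,
        rfl⟩))
    · exact Or.inr (mem_image.2 ⟨((p, q), b), mem_product.2 ⟨hact, mem_univ _⟩, rfl⟩)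
    · exact Or.inr (mem_image.2 ⟨((q, p), b), mem_product.2 ⟨hs _ _ hact, mem_univ _⟩, rfl⟩)
  have h2 : ∀ f : (U × U) × U → U × U × U, #((act A ×ˢ (univ : Finset U)).image f) ≤
      4 * L ^ 2 * Fintype.card U := by
    intro f
    refine card_image_le.trans ?_
    rw [card_product, card_univ]
    exact Nat.mul_le_mul_right _ hA.card
  refine (card_le_card h1).trans ?_
  refine (card_union_le _ _).trans ?_
  have h3 := card_union_le ((act A ×ˢ (univ : Finset U)).image (fun q => (q.1.1, q.1.2, q.2)))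
    ((act A ×ˢ (univ : Finset U)).image (fun q => (q.2, q.1.1, q.1.2)))
  have h4 := h2 (fun q => (q.1.1, q.1.2, q.2))
  have h5 := h2 (fun q => (q.2, q.1.1, q.1.2))
  have h6 := h2 (fun q => (q.1.1, q.2, q.1.2))
  have h7 : 12 * L ^ 2 * Fintype.card U = 4 * L ^ 2 * Fintype.card U + 4 * L ^ 2 * Fintype.card U +
      4 * L ^ 2 * Fintype.card U := by ring
  omega

open Classical in
/-- The main lemma: a place of the memory separates few pairs of a triple and a colouring. -/
theorem pairs_le (hL : L ≤ Fintype.card U) (hL2 : 2 ≤ L) (fl : Bool)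
    (lab : K → (U × U) ⊕ ℝ) {b : ℕ} (hb : 1 ≤ b) (hw : w ≤ b ^ 2) (σ : Mem w)
    (T : Finset (U × U × U)) (hT : T ⊆ Dist U) (W : List (Ins K w)) (s : K ⊕ (ℕ × Fin w)) (θ : ℝ) :
    #{p ∈ T ×ˢ (univ : Finset (U → Bool)) |
        θ ≤ rd (xin lab (edg fl p.1)) (execs (xin lab (edg fl p.1)) W σ) s ∧
        rd (xin lab (sepX p.2)) (execs (xin lab (sepX p.2)) W σ) s < θ} ≤
      (W.length * (1655 * (b * L) ^ 3) + 12 * L ^ 2 * Fintype.card U) * 2 ^ Fintype.card U +
      #T * (W.length * (w * (d0 U L + Fintype.card U ^ 2 * d2 U L))) := by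
  have hM0 : ∀ r j, GoodA L (initA (U := U) σ r j) := fun r j => good_const _
  obtain ⟨Bd, hB1, hB2⟩ := exists_bad (L := L) lab W (initA (U := U) σ)
  obtain ⟨Ls, hL1, hL2'⟩ := exists_lost hL hL2 fl lab hb hw W (initA (U := U) σ) hM0
  set M := appR L lab W (initA (U := U) σ) with hM
  have hgood := good_src hL2 lab (good_appR hL hL2 lab W _ hM0) s
  rw [← hM] at hgood
  set A := srcApp lab M s with hA
  set Tc : Finset (U × U × U) := {t : U × U × U | ∃ p ∈ edg fl t, p ∈ act A} with hTc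
  have hsub : ({p ∈ T ×ˢ (univ : Finset (U → Bool)) |
        θ ≤ rd (xin lab (edg fl p.1)) (execs (xin lab (edg fl p.1)) W σ) s ∧
        rd (xin lab (sepX p.2)) (execs (xin lab (sepX p.2)) W σ) s < θ} : Finset _) ⊆
      ((Ls ∪ Tc) ×ˢ (univ : Finset (U → Bool))) ∪ T ×ˢ Bd := by
    rintro ⟨t, χ⟩ hp
    rw [mem_filter, mem_product] at hp
    obtain ⟨⟨ht, -⟩, h1, h2⟩ := hp
    simp only at ht h1 h2
    rw [mem_union, mem_product, mem_product, mem_union]
    by_contra hcon
    push Not at hcon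
    obtain ⟨h3, h4⟩ := hcon
    have h5 : χ ∉ Bd := h4 ht
    have h6 : t ∉ Ls := fun h => h3 (Or.inl h) (mem_univ _)
    have h7 : t ∉ Tc := fun h => h3 (Or.inr h) (mem_univ _)
    have h8 : Below M (sepX χ) (execs (xin lab (sepX χ)) W σ) :=
      hB2 χ h5 σ (fun r j => App.ev_le _ le_rfl (fun _ _ _ => le_rfl))
    have h9 : Above M (edg fl t) (execs (xin lab (edg fl t)) W σ) :=
      hL2' t (hT ht) h6 σ (fun r j => App.base_le (initA (U := U) σ r j) _)
    have h10 := below_src lab h8 s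
    have h11 := above_src lab h9 s
    rw [← hA] at h10 h11
    rcases A.le_ev (h1.trans h11) with h12 | ⟨x, y, hxy, h12⟩
    · exact absurd (h12.trans ((A.base_le _).trans h10)) (not_le.2 h2)
    · apply h7
      rw [hTc, mem_filter]
      refine ⟨mem_univ _, (x, y), hxy, ?_⟩
      rw [mem_act]
      refine lt_of_lt_of_le (lt_of_le_of_lt ((A.base_le _).trans h10) h2) h12
  refine (card_le_card hsub).trans ((card_union_le _ _).trans ?_)
  rw [card_product, card_product, card_univ, Fintype.card_fun, Fintype.card_bool]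
  refine Nat.add_le_add (Nat.mul_le_mul_right _ ?_) (Nat.mul_le_mul_left _ hB1)
  exact (card_union_le _ _).trans (Nat.add_le_add hL1 (card_touch hgood fl))

end Core

/-! ### Algorithms -/

variable {K : Type} {w : ℕ} {β : Type}

theorem rd_mono {x x' : K → ℝ} (hx : x ≤ x') {σ σ' : Mem w} (hσ : σ ≤ σ')
    (s : K ⊕ (ℕ × Fin w)) : rd x σ s ≤ rd x' σ' s := by
  rcases s with k | p
  · exact hx k
  · exact hσ _ _

theorem exec_mono {x x' : K → ℝ} (hx : x ≤ x') {σ σ' : Mem w} (hσ : σ ≤ σ') (I : Ins K w) :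
    I.exec x σ ≤ I.exec x' σ' := by
  intro r
  rw [Ins.exec, Ins.exec]
  by_cases hr : r = I.dst
  · subst hr
    rw [Function.update_self, Function.update_self]
    exact I.mono (fun i => rd_mono hx hσ _)
  · rw [Function.update_of_ne hr, Function.update_of_ne hr]
    exact hσ r

theorem execs_mono {x x' : K → ℝ} (hx : x ≤ x') : ∀ (W : List (Ins K w)) {σ σ' : Mem w},
    σ ≤ σ' → execs x W σ ≤ execs x' W σ'
  | [], _, _, h => h
  | I :: W, _, _, h => execs_mono hx W (exec_mono hx h I)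

open Classical in
/-- the index of the leaf which is reached -/
noncomputable def Alg.idx (x : K → ℝ) : Alg K w β → Mem w → ℕ
  | .leaf _, _ => 0
  | .op I A, σ => A.idx x (I.exec x σ)
  | .test s θ lt ge, σ => if rd x σ s < θ then lt.idx x σ else lt.leaves + ge.idx x σ

/-- the instructions on the way to a leaf -/
def Alg.leafW : Alg K w β → ℕ → List (Ins K w)
  | .leaf _, _ => []
  | .op I A, i => I :: A.leafW i
  | .test _ _ lt ge, i => if i < lt.leaves then lt.leafW i else ge.leafW (i - lt.leaves)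

/-- the output of a leaf -/
def Alg.leafO : Alg K w β → ℕ → β
  | .leaf o, _ => o
  | .op _ A, i => A.leafO i
  | .test _ _ lt ge, i => if i < lt.leaves then lt.leafO i else ge.leafO (i - lt.leaves)

theorem Alg.idx_lt (x : K → ℝ) : ∀ (A : Alg K w β) (σ : Mem w), A.idx x σ < A.leaves
  | .leaf _, _ => by simp [Alg.idx, Alg.leaves]
  | .op I A, σ => by
    rw [Alg.idx, Alg.leaves]
    exact A.idx_lt x _
  | .test s θ lt ge, σ => by
    rw [Alg.idx, Alg.leaves]
    split_ifs
    · have := lt.idx_lt x σ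
      omega
    · have := ge.idx_lt x σ
      omega

theorem Alg.leaves_pos (A : Alg K w β) : 0 < A.leaves := by
  have := A.idx_lt (fun _ => 0) (fun _ _ => 0)
  omega

theorem Alg.idx_mono {x x' : K → ℝ} (hx : x ≤ x') : ∀ (A : Alg K w β) {σ σ' : Mem w}, σ ≤ σ' →
    A.idx x σ ≤ A.idx x' σ'
  | .leaf _, _, _, _ => le_rfl
  | .op I A, σ, σ', h => A.idx_mono hx (exec_mono hx h I)
  | .test s θ lt ge, σ, σ', h => by
    rw [Alg.idx, Alg.idx]
    have h1 := rd_mono hx h s
    split_ifs with h2 h3 h3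
    · exact lt.idx_mono hx h
    · have := lt.idx_lt x σ
      omega
    · exact absurd (lt_of_le_of_lt h1 h3) h2
    · have := ge.idx_mono hx h
      omega

theorem Alg.run_eq (x : K → ℝ) : ∀ (A : Alg K w β) (σ : Mem w),
    A.run x σ = (A.leafO (A.idx x σ), execs x (A.leafW (A.idx x σ)) σ)
  | .leaf _, _ => rfl
  | .op I A, σ => by
    rw [Alg.run, Alg.idx, Alg.leafO, Alg.leafW, execs_cons]
    exact A.run_eq x _
  | .test s θ lt ge, σ => by
    rw [Alg.run, Alg.idx, Alg.leafO, Alg.leafW]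
    by_cases h : rd x σ s < θ
    · have h1 := lt.idx_lt x σ
      rw [if_pos h, if_pos h, if_pos h1, if_pos h1]
      exact lt.run_eq x σ
    · have h1 : ¬ lt.leaves + ge.idx x σ < lt.leaves := by omega
      rw [if_neg h, if_neg h, if_neg h1, if_neg h1, Nat.add_sub_cancel_left]
      exact ge.run_eq x σ

theorem Alg.length_leafW : ∀ (A : Alg K w β) (i : ℕ), (A.leafW i).length ≤ A.steps
  | .leaf _, _ => by simp [Alg.leafW]
  | .op I A, i => by
    rw [Alg.leafW, Alg.steps, List.length_cons]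
    exact Nat.succ_le_succ (A.length_leafW i)
  | .test s θ lt ge, i => by
    rw [Alg.leafW, Alg.steps]
    split_ifs
    · exact (lt.length_leafW i).trans (le_max_left _ _)
    · exact (ge.length_leafW _).trans (le_max_right _ _)

open Classical in
/-- If no place of the memory separates more than `B` pairs, then few pairs lead to different
leaves. -/
theorem count_idx {Tt Cc : Type*} (T : Finset Tt) (C : Finset Cc) (X1 : K → ℝ) (XT : Tt → K → ℝ)
    (XC : Cc → K → ℝ) (σ : Mem w) (g B : ℕ) (hT : ∀ t ∈ T, X1 ≤ XT t) (hC : ∀ c ∈ C, X1 ≤ XC c)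
    (hB : ∀ (W : List (Ins K w)) s θ, W.length ≤ g → #{p ∈ T ×ˢ C |
      θ ≤ rd (XT p.1) (execs (XT p.1) W σ) s ∧ rd (XC p.2) (execs (XC p.2) W σ) s < θ} ≤ B) :
    ∀ (A : Alg K w β) (W : List (Ins K w)), W.length + A.steps ≤ g →
      (∀ c ∈ C, A.idx X1 (execs X1 W σ) = A.idx (XC c) (execs (XC c) W σ)) →
      #{p ∈ T ×ˢ C | A.idx (XT p.1) (execs (XT p.1) W σ) ≠ A.idx (XC p.2) (execs (XC p.2) W σ)} + B
        ≤ A.leaves * B
  | .leaf o, W, _, _ => by
    have h1 : ({p ∈ T ×ˢ C | (Alg.leaf o : Alg K w β).idx (XT p.1) (execs (XT p.1) W σ) ≠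
        (Alg.leaf o : Alg K w β).idx (XC p.2) (execs (XC p.2) W σ)} : Finset _) = ∅ := by
      apply filter_false_of_mem
      intro p _
      simp [Alg.idx]
    rw [h1, Alg.leaves]
    simp
  | .op I A, W, hW, hc => by
    have e : ∀ X : K → ℝ, (Alg.op I A).idx X (execs X W σ) = A.idx X (execs X (W ++ [I]) σ) := by
      intro X
      rw [Alg.idx, execs_append]
      rfl
    simp only [e] at hc ⊢
    rw [Alg.steps] at hW
    exact count_idx T C X1 XT XC σ g B hT hC hB A (W ++ [I]) (by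
      rw [List.length_append, List.length_singleton]; omega) hc
  | .test s θ lt ge, W, hW, hc => by
    rw [Alg.steps] at hW
    have hW1 : W.length ≤ g := by omega
    have hWl : W.length + lt.steps ≤ g := by
      have := le_max_left lt.steps ge.steps
      omega
    have hWg : W.length + ge.steps ≤ g := by
      have := le_max_right lt.steps ge.steps
      omega
    have e : ∀ X : K → ℝ, (Alg.test s θ lt ge).idx X (execs X W σ) =
        if rd X (execs X W σ) s < θ then lt.idx X (execs X W σ)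
        else lt.leaves + ge.idx X (execs X W σ) := fun X => by rw [Alg.idx]
    have hlt := lt.leaves_pos
    have hge := ge.leaves_pos
    by_cases h1 : rd X1 (execs X1 W σ) s < θ
    · -- the branch `<`
      have hCl : ∀ c ∈ C, rd (XC c) (execs (XC c) W σ) s < θ ∧
          lt.idx X1 (execs X1 W σ) = lt.idx (XC c) (execs (XC c) W σ) := by
        intro c hc'
        have h2 := hc c hc'
        rw [e, e, if_pos h1] at h2
        by_cases h3 : rd (XC c) (execs (XC c) W σ) s < θ
        · rw [if_pos h3] at h2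
          exact ⟨h3, h2⟩
        · rw [if_neg h3] at h2
          have := lt.idx_lt X1 (execs X1 W σ)
          omega
      have ih := count_idx T C X1 XT XC σ g B hT hC hB lt W hWl (fun c hc' => (hCl c hc').2)
      have hsub : ({p ∈ T ×ˢ C | (Alg.test s θ lt ge).idx (XT p.1) (execs (XT p.1) W σ) ≠
          (Alg.test s θ lt ge).idx (XC p.2) (execs (XC p.2) W σ)} : Finset _) ⊆
          ({p ∈ T ×ˢ C | lt.idx (XT p.1) (execs (XT p.1) W σ) ≠
            lt.idx (XC p.2) (execs (XC p.2) W σ)} : Finset _) ∪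
          ({p ∈ T ×ˢ C | θ ≤ rd (XT p.1) (execs (XT p.1) W σ) s ∧
            rd (XC p.2) (execs (XC p.2) W σ) s < θ} : Finset _) := by
        intro p hp
        rw [mem_filter] at hp
        have h2 := mem_product.1 hp.1
        have h3 := (hCl p.2 h2.2).1
        rw [mem_union, mem_filter, mem_filter]
        by_cases h4 : rd (XT p.1) (execs (XT p.1) W σ) s < θ
        · left
          refine ⟨hp.1, ?_⟩
          have h5 := hp.2
          rw [e, e, if_pos h3, if_pos h4] at h5
          exact h5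
        · right
          exact ⟨hp.1, not_lt.1 h4, h3⟩
      have h2 := (card_le_card hsub).trans (card_union_le _ _)
      have h3 := hB W s θ hW1
      rw [Alg.leaves]
      calc _ ≤ (lt.leaves * B) + B := by omega
        _ = (lt.leaves + 1) * B := by ring
        _ ≤ _ := Nat.mul_le_mul_right _ (by omega)
    · -- the branch `≥`
      have hTg : ∀ t ∈ T, ¬ rd (XT t) (execs (XT t) W σ) s < θ := by
        intro t ht h2
        exact h1 (lt_of_le_of_lt (rd_mono (hT t ht) (execs_mono (hT t ht) W le_rfl) s) h2)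
      have hCg : ∀ c ∈ C, ¬ rd (XC c) (execs (XC c) W σ) s < θ := by
        intro c hc' h2
        exact h1 (lt_of_le_of_lt (rd_mono (hC c hc') (execs_mono (hC c hc') W le_rfl) s) h2)
      have ih := count_idx T C X1 XT XC σ g B hT hC hB ge W hWg (fun c hc' => by
        have h2 := hc c hc'
        rw [e, e, if_neg h1, if_neg (hCg c hc')] at h2
        omega)
      have hsub : ({p ∈ T ×ˢ C | (Alg.test s θ lt ge).idx (XT p.1) (execs (XT p.1) W σ) ≠
          (Alg.test s θ lt ge).idx (XC p.2) (execs (XC p.2) W σ)} : Finset _) ⊆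
          ({p ∈ T ×ˢ C | ge.idx (XT p.1) (execs (XT p.1) W σ) ≠
            ge.idx (XC p.2) (execs (XC p.2) W σ)} : Finset _) := by
        intro p hp
        rw [mem_filter] at hp ⊢
        have h2 := mem_product.1 hp.1
        refine ⟨hp.1, ?_⟩
        have h5 := hp.2
        rw [e, e, if_neg (hTg _ h2.1), if_neg (hCg _ h2.2)] at h5
        omega
      have h2 := card_le_card hsub
      rw [Alg.leaves]
      calc _ ≤ ge.leaves * B := by omega
        _ ≤ _ := Nat.mul_le_mul_right _ (by omega)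

end Pool.Agent.L5helper51.WG
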