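import Pool.Agent.L5helper51.WG.Upper
import Pool.Agent.L5helper51.WG.Param

/-!
# Machines with few registers
-/

namespace Pool.Agent.L5helper51.WG

open Finset

/-- A step of a machine with `r` registers: it reads one entry of the input and replaces the contents
of all registers by arbitrary nondecreasing functions of the old contents and of this entry. -/
structure Stp (K : Type*) (r : ℕ) where
  /-- the entry which is read -/
  key : K
  /-- the new contents -/
  f : (Fin r → ℝ) → ℝ → (Fin r → ℝ)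
  /-- nondecreasing -/
  mono : ∀ s s' v v', s ≤ s' → v ≤ v' → f s v ≤ f s' v'

/-- the contents of the registers after a list of steps -/
def scan {K : Type*} {r : ℕ} (x : K → ℝ) (l : List (Stp K r)) (s : Fin r → ℝ) : Fin r → ℝ :=
  l.foldl (fun s S => S.f s (x S.key)) s

variable {K : Type} {r : ℕ}

/-- the same with given values of the entries which are read -/
def scanV : List (Stp K r) → (ℕ → ℝ) → (Fin r → ℝ) → (Fin r → ℝ)
  | [], _, s => s
  | S :: l, v, s => scanV l (fun i => v (i + 1)) (S.f s (v 0))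

theorem scanV_mono : ∀ (l : List (Stp K r)) {v v' : ℕ → ℝ} {s s' : Fin r → ℝ}, v ≤ v' → s ≤ s' →
    scanV l v s ≤ scanV l v' s'
  | [], _, _, _, _, _, h => h
  | S :: l, _, _, _, _, hv, hs =>
    scanV_mono l (fun i => hv (i + 1)) (S.mono _ _ _ _ hs (hv 0))

theorem scan_eq (x : K → ℝ) : ∀ (l : List (Stp K r)) (v : ℕ → ℝ) (s : Fin r → ℝ),
    (∀ i (h : i < l.length), v i = x (l[i].key)) → scan x l s = scanV l v s
  | [], _, _, _ => rfl
  | S :: l, v, s, h => by
    change scan x l (S.f s (x S.key)) = scanV l (fun i => v (i + 1)) (S.f s (v 0))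
    have h0 : v 0 = x S.key := h 0 (by simp)
    rw [h0]
    apply scan_eq x l
    intro i hi
    have := h (i + 1) (by simpa using hi)
    simpa using this

theorem scan_append (x : K → ℝ) (l l' : List (Stp K r)) (s : Fin r → ℝ) :
    scan x (l ++ l') s = scan x l' (scan x l s) := List.foldl_append

/-- at most `b ^ 2` steps as one instruction -/
noncomputable def grp {b : ℕ} (hb : 0 < b) (hr : r ≤ b ^ 2) (l : List (Stp K r)) :
    Ins K (4 * b ^ 2) where
  src i :=
    if i.val < b ^ 2 then .inr (0, i)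
    else if h : i.val - b ^ 2 < l.length then .inl (l[i.val - b ^ 2].key)
    else .inr (0, ⟨0, by positivity⟩)
  f v j :=
    if h : j.val < r then
      scanV l (fun t => if ht : t < b ^ 2 then v ⟨b ^ 2 + t, by omega⟩ else v ⟨0, by positivity⟩)
        (fun i => v ⟨i.val, by have := i.isLt; omega⟩) ⟨j.val, h⟩
    else 0
  mono := by
    intro v v' h j
    simp only
    split_ifs with h1
    · apply scanV_mono l
      · intro t
        simp only
        split_ifs
        · exact h _
        · exact h _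
      · intro i
        exact h _
    · exact le_rfl
  dst := 0

theorem grp_exec {b : ℕ} (hb : 0 < b) (hr : r ≤ b ^ 2) (l : List (Stp K r))
    (hl : l.length ≤ b ^ 2) (x : K → ℝ) (σ : Mem (4 * b ^ 2)) (s : Fin r → ℝ)
    (hs : ∀ i : Fin r, σ 0 ⟨i.val, by have := i.isLt; omega⟩ = s i) (j : Fin r) :
    (grp hb hr l).exec x σ 0 ⟨j.val, by have := j.isLt; omega⟩ = scan x l s j := by
  have e1 : (grp hb hr l).exec x σ 0 =
      (grp (K := K) hb hr l).f (fun i => rd x σ ((grp hb hr l).src i)) := by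
    rw [Ins.exec]
    exact Function.update_self _ _ _
  rw [e1]
  have e2 : scan x l s = scanV l (fun t => if ht : t < b ^ 2 then
      rd x σ ((grp hb hr l).src ⟨b ^ 2 + t, by omega⟩) else
      rd x σ ((grp hb hr l).src ⟨0, by positivity⟩)) s := by
    apply scan_eq
    intro i hi
    have h1 : i < b ^ 2 := by omega
    rw [dif_pos h1]
    have h2 : (grp hb hr l).src ⟨b ^ 2 + i, by omega⟩ = .inl (l[i].key) := by
      simp only [grp]
      have h3 : ¬ b ^ 2 + i < b ^ 2 := by omega
      rw [if_neg h3]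
      have h4 : b ^ 2 + i - b ^ 2 = i := by omega
      simp only [h4]
      rw [dif_pos hi]
    rw [h2]
    rfl
  have e3 : (fun i : Fin r => rd x σ ((grp hb hr l).src ⟨i.val, by have := i.isLt; omega⟩)) = s := by
    funext i
    have h2 : (grp hb hr l).src ⟨i.val, by have := i.isLt; omega⟩ =
        .inr (0, ⟨i.val, by have := i.isLt; omega⟩) := by
      simp only [grp]
      have h3 : i.val < b ^ 2 := by have := i.isLt; omega
      rw [if_pos h3]
    rw [h2]
    exact hs i
  rw [e2]
  change (if h : j.val < r then _ else _) = _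
  rw [dif_pos j.isLt]
  simp only [e3]

theorem exists_ins {b : ℕ} (hb : 0 < b) (hr : r ≤ b ^ 2) : ∀ (n : ℕ) (l : List (Stp K r)),
    l.length ≤ n * b ^ 2 → ∃ W : List (Ins K (4 * b ^ 2)), W.length = n ∧
      ∀ (x : K → ℝ) (σ : Mem (4 * b ^ 2)) (s : Fin r → ℝ),
        (∀ i : Fin r, σ 0 ⟨i.val, by have := i.isLt; omega⟩ = s i) →
        ∀ j : Fin r, execs x W σ 0 ⟨j.val, by have := j.isLt; omega⟩ = scan x l s j
  | 0, l, hl => by
    refine ⟨[], rfl, ?_⟩
    intro x σ s hs j
    have : l = [] := List.length_eq_zero_iff.1 (by omega)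
    rw [this, execs_nil]
    exact hs j
  | n + 1, l, hl => by
    obtain ⟨W, hW, h⟩ := exists_ins hb hr n (l.drop (b ^ 2)) (by
      rw [List.length_drop]
      have : (n + 1) * b ^ 2 = n * b ^ 2 + b ^ 2 := by ring
      omega)
    refine ⟨grp hb hr (l.take (b ^ 2)) :: W, by rw [List.length_cons, hW], ?_⟩
    intro x σ s hs j
    rw [execs_cons]
    have h1 := grp_exec hb hr (l.take (b ^ 2)) (by rw [List.length_take]; omega) x σ s hs
    rw [h x _ _ h1 j, ← scan_append, List.take_append_drop]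

/-- Machines with few registers need many steps. -/
theorem scan_lower {N b r T : ℕ} (hN : 2 ≤ N) (hb : 1 ≤ b) (hr : r ≤ b ^ 2) (hr0 : 0 < r)
    (l : List (Stp (Fin N × Fin N) r)) (hT : l.length ≤ T) (s0 : Fin r → ℝ) (θ : ℝ)
    (hcorr : ∀ G : SimpleGraph (Fin N), θ ≤ scan (adj G) l s0 ⟨0, hr0⟩ ↔ ¬ G.CliqueFree 3) :
    N ^ 3 ≤ 10 ^ 13 * (T / b ^ 2 + 1) * (b * Nat.log 2 N) ^ 3 := by
  classical
  have hb' : 0 < b := hb
  obtain ⟨W, hW, h⟩ := exists_ins (K := Fin N × Fin N) hb' hr (T / b ^ 2 + 1) l (by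
    have h1 := Nat.div_add_mod T (b ^ 2)
    have h2 := Nat.mod_lt T (show 0 < b ^ 2 by positivity)
    have h3 : (T / b ^ 2 + 1) * b ^ 2 = b ^ 2 * (T / b ^ 2) + b ^ 2 := by ring
    omega)
  set σ0 : Mem (4 * b ^ 2) := fun _ i => if h : i.val < r then s0 ⟨i.val, h⟩ else 0 with hσ0
  set A : Alg (Fin N × Fin N) (4 * b ^ 2) Bool :=
    ops W (.test (.inr (0, ⟨0, by positivity⟩)) θ (.leaf false) (.leaf true)) with hA
  have hrun : ∀ G : SimpleGraph (Fin N), (A.run (adj G) σ0).1 = true ↔ ¬ G.CliqueFree 3 := by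
    intro G
    rw [← hcorr G, hA, ops_run, Alg.run]
    have h1 := h (adj G) σ0 s0 (fun i => by
      rw [hσ0]
      simp) ⟨0, hr0⟩
    have h2 : rd (adj G) (execs (adj G) W σ0) (.inr (0, ⟨0, by positivity⟩)) =
        scan (adj G) l s0 ⟨0, hr0⟩ := h1
    rw [h2]
    by_cases h3 : scan (adj G) l s0 ⟨0, hr0⟩ < θ
    · rw [if_pos h3, Alg.run]
      simp [h3]
    · rw [if_neg h3, Alg.run]
      simp [not_lt.1 h3]
  have h1 := tri_lower (N := N) (w := 4 * b ^ 2) (b := 2 * b) (g := T / b ^ 2 + 1) (ℓ := 2)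
    (q := 2) hN (by omega) (by ring_nf; exact le_rfl) (Nat.le_add_left 1 _) (by norm_num)
    (Ω := Unit)
    (fun _ => 1) (fun _ => zero_le_one) (by simp) (fun _ => A) (fun _ => σ0) (by
      intro _
      refine ⟨?_, ?_⟩
      · rw [hA, ops_leaves]
        simp [Alg.leaves]
      · rw [hA, ops_steps, hW]
        simp [Alg.steps]) (by
      intro G
      have h2 : univ.filter (fun _ : Unit => (A.run (adj G) σ0).1 = true ↔ ¬ G.CliqueFree 3) =
          univ := by
        apply filter_true_of_mem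
        intro _ _
        exact hrun G
      rw [h2]
      norm_num)
  calc N ^ 3 ≤ _ := h1
    _ = 8192 * 10 ^ 9 * ((T / b ^ 2 + 1) * (b * Nat.log 2 N) ^ 3) := by ring
    _ ≤ 10 ^ 13 * ((T / b ^ 2 + 1) * (b * Nat.log 2 N) ^ 3) := by
        gcongr
        norm_num
    _ = _ := by ring

end Pool.Agent.L5helper51.WG
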