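import Pool.Agent.L5helper51.WG.App

/-!
# The structure of an approximator: few active pairs, and few ends of dangerous paths
-/

namespace Pool.Agent.L5helper51.WG

open Finset

variable {U : Type*} [Fintype U] [DecidableEq U] {L : ℕ}

/-- The main tool: if the base value is less than all `t i`, then there are colourings `χ` outside
any given set `E` of at most `d0` colourings with `h χ < t i` for all `i`. -/
theorem exists_low (hL : L ≤ Fintype.card U) (hL2 : 2 ≤ L) (h : (U → Bool) → ℝ)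
    {ι : Type*} (I : Finset ι) (hI : I.Nonempty) (t : ι → ℝ) (ht : ∀ i ∈ I, (mk L h).base < t i)
    (E : Finset (U → Bool)) (hE : #E ≤ d0 U L) :
    ∃ χ, χ ∉ E ∧ ∀ i ∈ I, h χ < t i := by
  obtain ⟨i0, hi0, hmin⟩ := exists_min_image I t hI
  by_contra hcon
  push Not at hcon
  have h1 : #{χ ∈ (univ : Finset (U → Bool)) | h χ < t i0} ≤ d0 U L := by
    refine le_trans (card_le_card ?_) hE
    intro χ hχ
    by_contra h2
    obtain ⟨i, hi, h3⟩ := hcon χ h2
    have h4 := (mem_filter.1 hχ).2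
    exact absurd h3 (not_le.2 (lt_of_lt_of_le h4 (hmin i hi)))
  have h2 : t i0 ≤ (mk L h).base := le_quant h1 (d0_lt hL hL2)
  exact absurd (ht i0 hi0) (not_lt.2 h2)

theorem exists_low' (hL : L ≤ Fintype.card U) (hL2 : 2 ≤ L) (h : (U → Bool) → ℝ) {a b : U}
    (hab : a ≠ b) {ι : Type*} (I : Finset ι) (hI : I.Nonempty) (t : ι → ℝ)
    (ht : ∀ i ∈ I, (mk L h).val a b < t i)
    (E : Finset (U → Bool)) (hE : #E ≤ d2 U L) :
    ∃ χ, χ ∉ E ∧ χ a ≠ χ b ∧ ∀ i ∈ I, h χ < t i := by
  obtain ⟨i0, hi0, hmin⟩ := exists_min_image I t hI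
  by_contra hcon
  push Not at hcon
  have h1 : #{χ ∈ sepS a b | h χ < t i0} ≤ d2 U L := by
    refine le_trans (card_le_card ?_) hE
    intro χ hχ
    rw [mem_filter, mem_sepS] at hχ
    by_contra h2
    obtain ⟨i, hi, h3⟩ := hcon χ h2 hχ.1
    exact absurd h3 (not_le.2 (lt_of_lt_of_le hχ.2 (hmin i hi)))
  have h2 : t i0 ≤ (mk L h).val a b := le_quant h1 (d2_lt hL hL2 hab)
  exact absurd (ht i0 hi0) (not_lt.2 h2)

/-- The colourings which are low although they separate an active pair are few. -/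
theorem card_low (h : (U → Bool) → ℝ) (a b : U) (hact : (mk L h).base < (mk L h).val a b) :
    #{χ : U → Bool | χ a ≠ χ b ∧ h χ < (mk L h).val a b} ≤ d2 U L := by
  rcases quant_spec (sepS a b) h (d2 U L) (mk L h).base with h3 | h3
  · have h4 : (mk L h).val a b = (mk L h).base := h3
    rw [h4] at hact
    exact absurd hact (lt_irrefl _)
  · refine le_trans (card_le_card ?_) h3
    intro χ hχ
    simp only [mem_filter, mem_univ, true_and, mem_sepS] at hχ ⊢
    exact hχ

/-- There are no `L` independent active pairs. -/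
theorem few_active (hL : L ≤ Fintype.card U) (hL2 : 2 ≤ L) (h : (U → Bool) → ℝ)
    {ι : Type*} [DecidableEq ι] (x y : ι → U) (I : Finset ι)
    (hy : ∀ i ∈ I, ∀ k ∈ I, i ≠ k → y i ≠ y k) (hx : ∀ i ∈ I, ∀ k ∈ I, x i ≠ y k)
    (hact : ∀ i ∈ I, (mk L h).base < (mk L h).val (y i) (x i)) : #I < L := by
  classical
  by_contra hcon
  obtain ⟨J, hJI, hJ⟩ := exists_subset_card_eq (not_lt.1 hcon)
  have hne : J.Nonempty := by
    rw [← card_pos]
    omega
  set E1 : Finset (U → Bool) := {χ | ∀ i ∈ J, χ (y i) = χ (x i)} with hE1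
  set E2 : Finset (U → Bool) := J.biUnion (fun i => {χ : U → Bool | χ (y i) ≠ χ (x i) ∧
    h χ < (mk L h).val (y i) (x i)}) with hE2
  have h1 : #E1 ≤ 2 ^ (Fintype.card U - L) := by
    apply pow_le_aux hL
    rw [← hJ]
    exact count_eq x y J (fun i hi k hk => hy i (hJI hi) k (hJI hk))
      (fun i hi k hk => hx i (hJI hi) k (hJI hk))
  have h2 : #E2 ≤ L * 2 ^ (Fintype.card U - L) := by
    refine card_biUnion_le.trans ?_
    calc _ ≤ ∑ _i ∈ J, 2 ^ (Fintype.card U - L) :=
          sum_le_sum (fun i hi => card_low h _ _ (hact i (hJI hi)))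
      _ = _ := by rw [sum_const, smul_eq_mul, hJ]
  have h3 : #(E1 ∪ E2) ≤ d0 U L := by
    refine (card_union_le _ _).trans ?_
    rw [d0]
    calc _ ≤ _ := Nat.add_le_add h1 h2
      _ = _ := by ring
  obtain ⟨χ, hχ, hlow⟩ := exists_low hL hL2 h J hne _ (fun i hi => hact i (hJI hi)) _ h3
  rw [mem_union, not_or] at hχ
  apply hχ.1
  rw [hE1, mem_filter]
  refine ⟨mem_univ _, fun i hi => ?_⟩
  by_contra h4
  apply hχ.2
  rw [hE2, mem_biUnion]
  exact ⟨i, hi, mem_filter.2 ⟨mem_univ _, h4, hlow i hi⟩⟩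

/-- The active pairs. -/
noncomputable def act (A : App U) : Finset (U × U) := {p | A.base < A.val p.1 p.2}

omit [DecidableEq U] in
theorem mem_act {A : App U} {a b : U} : (a, b) ∈ act A ↔ A.base < A.val a b := by
  simp [act]

theorem card_act (hL : L ≤ Fintype.card U) (hL2 : 2 ≤ L) (h : (U → Bool) → ℝ) :
    #(act (mk L h)) ≤ 4 * L ^ 2 := by
  classical
  have : Nonempty U := Fintype.card_pos_iff.1 (by omega)
  set A := mk L h with hA
  have hself : ∀ a b, (a, b) ∈ act A → a ≠ b := by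
    rintro a b hab rfl
    rw [mem_act, hA, val_self] at hab
    exact lt_irrefl _ hab
  have hsym : ∀ a b, (a, b) ∈ act A → (b, a) ∈ act A := by
    intro a b hab
    rw [mem_act] at hab ⊢
    rwa [hA, val_symm]
  -- stars
  have hstar : ∀ a, #{b | (a, b) ∈ act A} ≤ L := by
    intro a
    refine (few_active (L := L) (h := h) hL hL2 (fun _ => a) (fun b => b)
      ({b | (a, b) ∈ act A} : Finset U) (fun _ _ _ _ h => h) ?_ ?_).le
    · intro i _ k hk
      exact hself a k (mem_filter.1 hk).2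
    · intro i hi
      exact mem_act.1 (hsym _ _ (mem_filter.1 hi).2)
  -- matchings
  obtain ⟨H, hH, hcov⟩ := hit ((act A).image (fun p => ({p.1, p.2} : Finset U))) 2 L (by
      intro B hB
      rw [mem_image] at hB
      obtain ⟨p, _, rfl⟩ := hB
      exact card_le_two) (by
      intro B hB
      rw [mem_image] at hB
      obtain ⟨p, _, rfl⟩ := hB
      exact ⟨p.1, by simp⟩) (by
      intro M hM hdis
      have h1 : ∀ B ∈ M, ∃ p ∈ act A, ({p.1, p.2} : Finset U) = B := by
        intro B hB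
        simpa using hM hB
      choose! p hp hpB using h1
      have m1 : ∀ B ∈ M, (p B).1 ∈ B := fun B hB => by
        have h9 : (p B).1 ∈ ({(p B).1, (p B).2} : Finset U) := by simp
        rwa [hpB B hB] at h9
      have m2 : ∀ B ∈ M, (p B).2 ∈ B := fun B hB => by
        have h9 : (p B).2 ∈ ({(p B).1, (p B).2} : Finset U) := by simp
        rwa [hpB B hB] at h9
      refine few_active (L := L) (h := h) hL hL2 (fun B => (p B).2) (fun B => (p B).1) M ?_ ?_ ?_
      · intro B hB C hC hne heq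
        have h2 := hdis B hB C hC hne
        rw [disjoint_left] at h2
        refine h2 (m1 B hB) ?_
        have h5 : (p B).1 = (p C).1 := heq
        rw [h5]
        exact m1 C hC
      · intro B hB C hC heq
        by_cases hne : B = C
        · subst hne
          exact hself _ _ (hp B hB) heq.symm
        · have h2 := hdis B hB C hC hne
          rw [disjoint_left] at h2
          refine h2 (m2 B hB) ?_
          have h5 : (p B).2 = (p C).1 := heq
          rw [h5]
          exact m1 C hC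
      · intro B hB
        exact mem_act.1 (hp B hB))
  have h2 : act A ⊆ H.biUnion (fun a => (({b | (a, b) ∈ act A} : Finset U).image (fun b => (a, b))) ∪
      (({b | (a, b) ∈ act A} : Finset U).image (fun b => (b, a)))) := by
    rintro ⟨a, b⟩ hab
    have h3 := hcov {a, b} (mem_image.2 ⟨(a, b), hab, rfl⟩)
    rw [not_disjoint_iff] at h3
    obtain ⟨v, hv, hvH⟩ := h3
    rw [mem_insert, mem_singleton] at hv
    rw [mem_biUnion]
    refine ⟨v, hvH, ?_⟩
    rw [mem_union]
    rcases hv with rfl | rfl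
    · left
      exact mem_image.2 ⟨b, mem_filter.2 ⟨mem_univ _, hab⟩, rfl⟩
    · right
      exact mem_image.2 ⟨a, mem_filter.2 ⟨mem_univ _, hsym _ _ hab⟩, rfl⟩
  calc #(act A) ≤ _ := card_le_card h2
    _ ≤ ∑ _a ∈ H, 2 * L := by
        refine card_biUnion_le.trans (sum_le_sum (fun a _ => ?_))
        refine (card_union_le _ _).trans ?_
        have h3 := hstar a
        have h4 := card_image_le (s := ({b | (a, b) ∈ act A} : Finset U)) (f := fun b => (a, b))
        have h5 := card_image_le (s := ({b | (a, b) ∈ act A} : Finset U)) (f := fun b => (b, a))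
        omega
    _ = #H * (2 * L) := by rw [sum_const, smul_eq_mul]
    _ ≤ (2 * L) * (2 * L) := Nat.mul_le_mul_right _ hH
    _ = _ := by ring

/-- A dangerous path: two separated edges `ab`, `bc` together force a value which is not explained by
the base value or one of the edges. -/
def Dng (L : ℕ) (h : (U → Bool) → ℝ) (a b c : U) : Prop :=
  a ≠ b ∧ b ≠ c ∧ a ≠ c ∧ ∃ t, (mk L h).base < t ∧ (mk L h).val a b < t ∧ (mk L h).val b c < t ∧
    ∀ χ : U → Bool, χ a ≠ χ b → χ b ≠ χ c → t ≤ h χ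

theorem Dng.symm {h : (U → Bool) → ℝ} {a b c : U} (H : Dng L h a b c) : Dng L h c b a := by
  obtain ⟨h1, h2, h3, t, h4, h5, h6, h7⟩ := H
  refine ⟨h2.symm, h1.symm, h3.symm, t, h4, ?_, ?_, fun χ h8 h9 => h7 χ h9.symm h8.symm⟩
  · rwa [val_symm]
  · rwa [val_symm]

open Classical in
/-- the petals of a pair -/
noncomputable def pet (L : ℕ) (h : (U → Bool) → ℝ) (a b : U) : Finset U :=
  {c | Dng L h a b c ∨ Dng L h b a c}

theorem card_pet (hL : L ≤ Fintype.card U) (hL2 : 2 ≤ L) (h : (U → Bool) → ℝ) {a b : U}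
    (hab : a ≠ b) : #(pet L h a b) < L := by
  classical
  have : Nonempty U := Fintype.card_pos_iff.1 (by omega)
  by_contra hcon
  obtain ⟨J, hJI, hJ⟩ := exists_subset_card_eq (not_lt.1 hcon)
  have hne : J.Nonempty := by
    rw [← card_pos]
    omega
  have h1 : ∀ c ∈ J, ∃ x t, (x = a ∨ x = b) ∧ c ≠ a ∧ c ≠ b ∧ (mk L h).val a b < t ∧
      ∀ χ : U → Bool, χ a ≠ χ b → χ c ≠ χ x → t ≤ h χ := by
    intro c hc
    have h2 := hJI hc
    rw [pet, mem_filter] at h2
    rcases h2.2 with ⟨_, h4, h5, t, _, h7, _, h9⟩ | ⟨_, h4, h5, t, _, h7, _, h9⟩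
    · exact ⟨b, t, Or.inr rfl, h5.symm, h4.symm, h7, fun χ h10 h11 => h9 χ h10 h11.symm⟩
    · refine ⟨a, t, Or.inl rfl, h4.symm, h5.symm, ?_, fun χ h10 h11 => h9 χ h10.symm h11.symm⟩
      rwa [val_symm]
  choose! x t hx hca hcb ht hχ using h1
  have h2 := count_eq (U := U) x (fun c => c) J (fun _ _ _ _ h => h) (by
    intro i hi k hk
    rcases hx i hi with h3 | h3
    · rw [h3]; exact (hca k hk).symm
    · rw [h3]; exact (hcb k hk).symm)
  rw [hJ] at h2
  have h3 := pow_le_aux hL h2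
  obtain ⟨χ, h4, h5, h6⟩ := exists_low' hL hL2 h hab J hne t ht _ h3
  have h8 : ∀ c ∈ J, χ c = χ (x c) := by
    intro c hc
    by_contra h7
    exact absurd (hχ c hc χ h5 h7) (not_le.2 (h6 c hc))
  apply h4
  simpa using h8

theorem pat_aux (hL : L ≤ Fintype.card U) (hL2 : 2 ≤ L) (h : (U → Bool) → ℝ)
    {ι : Type*} [DecidableEq ι] (x y z : ι → U) (p q : ι → Bool) (I : Finset ι)
    (hyz : ∀ i ∈ I, y i ≠ z i)
    (hy : ∀ i ∈ I, ∀ k ∈ I, i ≠ k → y i ≠ y k ∧ y i ≠ z k)
    (hz : ∀ i ∈ I, ∀ k ∈ I, i ≠ k → z i ≠ y k ∧ z i ≠ z k)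
    (hx : ∀ i ∈ I, ∀ k ∈ I, x i ≠ y k ∧ x i ≠ z k)
    (ht : ∀ i ∈ I, ∃ t, (mk L h).base < t ∧ ∀ χ : U → Bool, χ (y i) = (χ (x i) ^^ p i) →
      χ (z i) = (χ (x i) ^^ q i) → t ≤ h χ) : #I < 3 * L := by
  classical
  by_contra hcon
  obtain ⟨J, hJI, hJ⟩ := exists_subset_card_eq (not_lt.1 hcon)
  have hne : J.Nonempty := by
    rw [← card_pos]
    omega
  choose! t ht1 ht2 using ht
  have h1 := count_pat x y z p q J (fun i hi => hyz i (hJI hi))
    (fun i hi k hk => hy i (hJI hi) k (hJI hk)) (fun i hi k hk => hz i (hJI hi) k (hJI hk))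
    (fun i hi k hk => hx i (hJI hi) k (hJI hk))
  set E : Finset (U → Bool) := {χ : U → Bool | ∀ i ∈ J, ¬ (χ (y i) = (χ (x i) ^^ p i) ∧
      χ (z i) = (χ (x i) ^^ q i))} with hE
  rw [hJ] at h1
  have h2 : 2 ^ L * #E ≤ 2 ^ Fintype.card U := by
    have h3 : (27 : ℕ) ^ L ≤ 32 ^ L := Nat.pow_le_pow_left (by norm_num) _
    have h4 : (32 : ℕ) ^ L * (2 ^ L * #E) ≤ 32 ^ L * 2 ^ Fintype.card U := by
      calc (32 : ℕ) ^ L * (2 ^ L * #E) = 4 ^ (3 * L) * #E := by
            rw [← mul_assoc, ← mul_pow, pow_mul]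
            norm_num
        _ ≤ 3 ^ (3 * L) * 2 ^ Fintype.card U := h1
        _ = 27 ^ L * 2 ^ Fintype.card U := by
            rw [pow_mul]
            norm_num
        _ ≤ _ := Nat.mul_le_mul_right _ h3
    exact Nat.le_of_mul_le_mul_left h4 (by positivity)
  have h3 : #E ≤ d0 U L := by
    have h4 := pow_le_aux hL h2
    rw [d0]
    calc #E ≤ 1 * 2 ^ (Fintype.card U - L) := by rw [one_mul]; exact h4
      _ ≤ _ := Nat.mul_le_mul_right _ (by omega)
  obtain ⟨χ, hχ, hlow⟩ := exists_low hL hL2 h J hne t (fun i hi => ht1 i (hJI hi)) E h3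
  apply hχ
  rw [hE, mem_filter]
  refine ⟨mem_univ _, fun i hi h4 => ?_⟩
  exact absurd (ht2 i (hJI hi) χ h4.1 h4.2) (not_le.2 (hlow i hi))

theorem bne_true {a b : Bool} (h : a = (b ^^ true)) : a ≠ b := by
  cases a <;> cases b <;> simp_all

theorem bne_false {a b : Bool} (h : a = (b ^^ false)) : a = b := by
  cases a <;> cases b <;> simp_all

open Classical in
/-- Every dangerous path contains a pair of a small set `D`. -/
theorem exists_D (hL : L ≤ Fintype.card U) (hL2 : 2 ≤ L) (h : (U → Bool) → ℝ) :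
    ∃ D : Finset (U × U), #D ≤ 54 * L ^ 2 ∧ ∀ a b c, Dng L h a b c →
      ∃ x y, x ≠ y ∧ (x = a ∨ x = b ∨ x = c) ∧ (y = a ∨ y = b ∨ y = c) ∧ (x, y) ∈ D := by
  have : Nonempty U := Fintype.card_pos_iff.1 (by omega)
  -- hitting set of all dangerous paths
  obtain ⟨H, hH, hcov⟩ := hit (({t : U × U × U | Dng L h t.1 t.2.1 t.2.2} : Finset _).image
      (fun t => ({t.1, t.2.1, t.2.2} : Finset U))) 3 (3 * L) (by
      intro B hB
      rw [mem_image] at hB
      obtain ⟨p, _, rfl⟩ := hB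
      exact card_le_three) (by
      intro B hB
      rw [mem_image] at hB
      obtain ⟨p, _, rfl⟩ := hB
      exact ⟨p.1, by simp⟩) (by
      intro M hM hdis
      have h1 : ∀ B ∈ M, ∃ p : U × U × U, Dng L h p.1 p.2.1 p.2.2 ∧
          ({p.1, p.2.1, p.2.2} : Finset U) = B := by
        intro B hB
        have h2 := hM hB
        rw [mem_image] at h2
        obtain ⟨p, hp, hpB⟩ := h2
        exact ⟨p, (mem_filter.1 hp).2, hpB⟩
      choose! p hp hpB using h1
      have m1 : ∀ B ∈ M, (p B).1 ∈ B := fun B hB => by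
        have h9 : (p B).1 ∈ ({(p B).1, (p B).2.1, (p B).2.2} : Finset U) := by simp
        rwa [hpB B hB] at h9
      have m2 : ∀ B ∈ M, (p B).2.1 ∈ B := fun B hB => by
        have h9 : (p B).2.1 ∈ ({(p B).1, (p B).2.1, (p B).2.2} : Finset U) := by simp
        rwa [hpB B hB] at h9
      have m3 : ∀ B ∈ M, (p B).2.2 ∈ B := fun B hB => by
        have h9 : (p B).2.2 ∈ ({(p B).1, (p B).2.1, (p B).2.2} : Finset U) := by simp
        rwa [hpB B hB] at h9
      have hd : ∀ B ∈ M, ∀ C ∈ M, B ≠ C → ∀ v w, v ∈ B → w ∈ C → v ≠ w := by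
        rintro B hB C hC hne v w hv hw rfl
        exact (disjoint_left.1 (hdis B hB C hC hne)) hv hw
      refine pat_aux hL hL2 h (fun B => (p B).2.1) (fun B => (p B).1) (fun B => (p B).2.2)
        (fun _ => true) (fun _ => true) M ?_ ?_ ?_ ?_ ?_
      · intro B hB
        exact (hp B hB).2.2.1
      · intro B hB C hC hne
        exact ⟨hd B hB C hC hne _ _ (m1 B hB) (m1 C hC), hd B hB C hC hne _ _ (m1 B hB) (m3 C hC)⟩
      · intro B hB C hC hne
        exact ⟨hd B hB C hC hne _ _ (m3 B hB) (m1 C hC), hd B hB C hC hne _ _ (m3 B hB) (m3 C hC)⟩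
      · intro B hB C hC
        by_cases hne : B = C
        · subst hne
          exact ⟨(hp B hB).1.symm, (hp B hB).2.1⟩
        · exact ⟨hd B hB C hC hne _ _ (m2 B hB) (m1 C hC),
            hd B hB C hC hne _ _ (m2 B hB) (m3 C hC)⟩
      · intro B hB
        obtain ⟨_, _, _, t, h4, _, _, h7⟩ := hp B hB
        refine ⟨t, h4, fun χ h8 h9 => h7 χ (bne_true h8) (bne_true h9).symm⟩)
  -- hitting sets of the links
  have link : ∀ x : U, ∃ K : Finset U, #K ≤ 2 * (3 * L) ∧ ∀ a b c, Dng L h a b c →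
      (x = a ∨ x = b ∨ x = c) → ∃ y ∈ K, y ≠ x ∧ (y = a ∨ y = b ∨ y = c) := by
    intro x
    -- the paths through `x`, in one of the forms `y x z` or `x y z`
    set Q : U × U → Prop := fun p => Dng L h p.1 x p.2 ∨ Dng L h x p.1 p.2 with hQ
    have hQne : ∀ p, Q p → p.1 ≠ x ∧ p.2 ≠ x ∧ p.1 ≠ p.2 := by
      rintro p (h1 | h1)
      · exact ⟨h1.1, h1.2.1.symm, h1.2.2.1⟩
      · exact ⟨h1.1.symm, h1.2.2.1.symm, h1.2.1⟩
    obtain ⟨K, hK, hKc⟩ := hit (({p : U × U | Q p} : Finset _).image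
        (fun p => ({p.1, p.2} : Finset U))) 2 (3 * L) (by
        intro B hB
        rw [mem_image] at hB
        obtain ⟨p, _, rfl⟩ := hB
        exact card_le_two) (by
        intro B hB
        rw [mem_image] at hB
        obtain ⟨p, _, rfl⟩ := hB
        exact ⟨p.1, by simp⟩) (by
        intro M hM hdis
        have h1 : ∀ B ∈ M, ∃ p : U × U, Q p ∧ ({p.1, p.2} : Finset U) = B := by
          intro B hB
          have h2 := hM hB
          rw [mem_image] at h2
          obtain ⟨p, hp, hpB⟩ := h2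
          exact ⟨p, (mem_filter.1 hp).2, hpB⟩
        choose! p hp hpB using h1
        have m1 : ∀ B ∈ M, (p B).1 ∈ B := fun B hB => by
          have h9 : (p B).1 ∈ ({(p B).1, (p B).2} : Finset U) := by simp
          rwa [hpB B hB] at h9
        have m2 : ∀ B ∈ M, (p B).2 ∈ B := fun B hB => by
          have h9 : (p B).2 ∈ ({(p B).1, (p B).2} : Finset U) := by simp
          rwa [hpB B hB] at h9
        have hd : ∀ B ∈ M, ∀ C ∈ M, B ≠ C → ∀ v w, v ∈ B → w ∈ C → v ≠ w := by
          rintro B hB C hC hne v w hv hw rfl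
          exact (disjoint_left.1 (hdis B hB C hC hne)) hv hw
        refine pat_aux hL hL2 h (fun _ => x) (fun B => (p B).1) (fun B => (p B).2)
          (fun _ => true) (fun B => decide (Dng L h (p B).1 x (p B).2)) M ?_ ?_ ?_ ?_ ?_
        · intro B hB
          exact (hQne _ (hp B hB)).2.2
        · intro B hB C hC hne
          exact ⟨hd B hB C hC hne _ _ (m1 B hB) (m1 C hC), hd B hB C hC hne _ _ (m1 B hB) (m2 C hC)⟩
        · intro B hB C hC hne
          exact ⟨hd B hB C hC hne _ _ (m2 B hB) (m1 C hC), hd B hB C hC hne _ _ (m2 B hB) (m2 C hC)⟩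
        · intro B hB C hC
          exact ⟨(hQne _ (hp C hC)).1.symm, (hQne _ (hp C hC)).2.1.symm⟩
        · intro B hB
          by_cases h2 : Dng L h (p B).1 x (p B).2
          · have h10 : decide (Dng L h (p B).1 x (p B).2) = true := by
              rw [decide_eq_true_iff]
              exact h2
            obtain ⟨_, _, _, t, h4, _, _, h7⟩ := h2
            refine ⟨t, h4, fun χ h8 h9 => ?_⟩
            rw [h10] at h9
            exact h7 χ (bne_true h8) (bne_true h9).symm
          · have h3 : Dng L h x (p B).1 (p B).2 := (hp B hB).resolve_left h2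
            obtain ⟨_, _, _, t, h4, _, _, h7⟩ := h3
            refine ⟨t, h4, fun χ h8 h9 => ?_⟩
            have h10 : decide (Dng L h (p B).1 x (p B).2) = false := by
              rw [decide_eq_false_iff_not]
              exact h2
            rw [h10] at h9
            have h11 := bne_true h8
            have h12 := bne_false h9
            exact h7 χ h11.symm (by rw [h12]; exact h11))
    have hfin : ∀ y z, Q (y, z) → ∃ v ∈ K, v ≠ x ∧ (v = y ∨ v = z) := by
      intro y z hyz
      have h1 := hKc {y, z} (mem_image.2 ⟨(y, z), mem_filter.2 ⟨mem_univ _, hyz⟩, rfl⟩)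
      rw [not_disjoint_iff] at h1
      obtain ⟨v, hv, hvK⟩ := h1
      rw [mem_insert, mem_singleton] at hv
      refine ⟨v, hvK, ?_, hv⟩
      have h2 := hQne _ hyz
      rcases hv with rfl | rfl
      · exact h2.1
      · exact h2.2.1
    refine ⟨K, hK, ?_⟩
    intro a b c hD hx
    rcases hx with rfl | rfl | rfl
    · obtain ⟨v, hv, hvx, h1⟩ := hfin b c (Or.inr hD)
      exact ⟨v, hv, hvx, by tauto⟩
    · obtain ⟨v, hv, hvx, h1⟩ := hfin a c (Or.inl hD)
      exact ⟨v, hv, hvx, by tauto⟩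
    · obtain ⟨v, hv, hvx, h1⟩ := hfin b a (Or.inr hD.symm)
      exact ⟨v, hv, hvx, by tauto⟩
  choose K hK hKc using link
  refine ⟨H.biUnion (fun x => (K x).image (fun y => (x, y))), ?_, ?_⟩
  · calc _ ≤ ∑ x ∈ H, #((K x).image (fun y => (x, y))) := card_biUnion_le
      _ ≤ ∑ _x ∈ H, 2 * (3 * L) := sum_le_sum (fun x _ => card_image_le.trans (hK x))
      _ = #H * (2 * (3 * L)) := by rw [sum_const, smul_eq_mul]
      _ ≤ (3 * (3 * L)) * (2 * (3 * L)) := Nat.mul_le_mul_right _ hH
      _ = _ := by ring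
  · intro a b c hD
    have h1 := hcov {a, b, c} (mem_image.2 ⟨(a, b, c), mem_filter.2 ⟨mem_univ _, hD⟩, rfl⟩)
    rw [not_disjoint_iff] at h1
    obtain ⟨x, hx, hxH⟩ := h1
    simp only [mem_insert, mem_singleton] at hx
    obtain ⟨y, hy, hyx, hy'⟩ := hKc x a b c hD hx
    exact ⟨x, y, hyx.symm, hx, hy', mem_biUnion.2 ⟨x, hxH, mem_image.2 ⟨y, hy, rfl⟩⟩⟩

end Pool.Agent.L5helper51.WG
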