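import Pool.Agent.L5helper51.WG.Run
import Pool.Agent.L5helper51.WG.Chain

/-!
# Triangle detection by blocks
-/

namespace Pool.Agent.L5helper51.WG

open Finset

/-- index of an entry -/
def enc {b : ℕ} (k : Fin 4) (r s : Fin b) : Fin (4 * b ^ 2) :=
  ⟨k * b ^ 2 + (r * b + s), by
    have h1 := k.isLt
    have h2 := r.isLt
    have h3 := s.isLt
    have h4 : (r : ℕ) * b + s < b ^ 2 := by
      calc (r : ℕ) * b + s < r * b + b := by omega
        _ = (r + 1) * b := by ring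
        _ ≤ b * b := Nat.mul_le_mul_right _ h2
        _ = b ^ 2 := by ring
    calc (k : ℕ) * b ^ 2 + (r * b + s) < k * b ^ 2 + b ^ 2 := by omega
      _ = (k + 1) * b ^ 2 := by ring
      _ ≤ 4 * b ^ 2 := Nat.mul_le_mul_right _ h1⟩

variable {N b : ℕ}

/-- the entry of the adjacency matrix for the vertices `x * b + r`, `y * b + s` (or an entry of the
row 1 of the memory, which contains only zeros) -/
def cell (hb : 0 < b) (x r y s : ℕ) : (Fin N × Fin N) ⊕ (ℕ × Fin (4 * b ^ 2)) :=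
  if h : x * b + r < N ∧ y * b + s < N then .inl (⟨x * b + r, h.1⟩, ⟨y * b + s, h.2⟩)
  else .inr (1, ⟨0, by positivity⟩)

open Classical in
/-- the instruction for three blocks `x, y, z` -/
noncomputable def blk (hb : 0 < b) (t : ℕ × ℕ × ℕ) : Ins (Fin N × Fin N) (4 * b ^ 2) where
  src i :=
    if i.val / b ^ 2 = 0 then cell hb t.1 (i.val % b ^ 2 / b) t.2.1 (i.val % b ^ 2 % b)
    else if i.val / b ^ 2 = 1 then cell hb t.2.1 (i.val % b ^ 2 / b) t.2.2 (i.val % b ^ 2 % b)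
    else if i.val / b ^ 2 = 2 then cell hb t.1 (i.val % b ^ 2 / b) t.2.2 (i.val % b ^ 2 % b)
    else .inr (0, ⟨0, by positivity⟩)
  f v _ := if (∃ r s u : Fin b, 1 ≤ v (enc 0 r s) ∧ 1 ≤ v (enc 1 s u) ∧ 1 ≤ v (enc 2 r u)) ∨
    1 ≤ v (enc 3 ⟨0, hb⟩ ⟨0, hb⟩) then 1 else 0
  mono := by
    intro v v' h _
    simp only
    by_cases h1 : (∃ r s u : Fin b, 1 ≤ v (enc 0 r s) ∧ 1 ≤ v (enc 1 s u) ∧ 1 ≤ v (enc 2 r u)) ∨
      1 ≤ v (enc 3 ⟨0, hb⟩ ⟨0, hb⟩)
    · have h2 : (∃ r s u : Fin b, 1 ≤ v' (enc 0 r s) ∧ 1 ≤ v' (enc 1 s u) ∧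
          1 ≤ v' (enc 2 r u)) ∨ 1 ≤ v' (enc 3 ⟨0, hb⟩ ⟨0, hb⟩) := by
        rcases h1 with ⟨r, s, u, h3, h4, h5⟩ | h3
        · exact Or.inl ⟨r, s, u, h3.trans (h _), h4.trans (h _), h5.trans (h _)⟩
        · exact Or.inr (h3.trans (h _))
      rw [if_pos h1, if_pos h2]
    · rw [if_neg h1]
      split_ifs <;> norm_num
  dst := 0

theorem enc_div (hb : 0 < b) (k : Fin 4) (r s : Fin b) : (enc k r s).val / b ^ 2 = k := by
  have h2 := r.isLt
  have h3 := s.isLt
  have h4 : (r : ℕ) * b + s < b ^ 2 := by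
    calc (r : ℕ) * b + s < r * b + b := by omega
      _ = (r + 1) * b := by ring
      _ ≤ b * b := Nat.mul_le_mul_right _ h2
      _ = b ^ 2 := by ring
  change (k * b ^ 2 + (r * b + s)) / b ^ 2 = k
  rw [mul_comm, Nat.mul_add_div (by positivity), Nat.div_eq_of_lt h4, add_zero]

theorem enc_mod (k : Fin 4) (r s : Fin b) : (enc k r s).val % b ^ 2 = r * b + s := by
  have h2 := r.isLt
  have h3 := s.isLt
  have h4 : (r : ℕ) * b + s < b ^ 2 := by
    calc (r : ℕ) * b + s < r * b + b := by omega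
      _ = (r + 1) * b := by ring
      _ ≤ b * b := Nat.mul_le_mul_right _ h2
      _ = b ^ 2 := by ring
  change (k * b ^ 2 + (r * b + s)) % b ^ 2 = _
  rw [mul_comm, Nat.mul_add_mod, Nat.mod_eq_of_lt h4]

theorem rs_div {r s : Fin b} : ((r : ℕ) * b + s) / b = r := by
  have h3 := s.isLt
  rw [mul_comm, Nat.mul_add_div (by omega), Nat.div_eq_of_lt h3, add_zero]

theorem rs_mod {r s : Fin b} : ((r : ℕ) * b + s) % b = s := by
  have h3 := s.isLt
  rw [mul_comm, Nat.mul_add_mod, Nat.mod_eq_of_lt h3]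

theorem src0 (hb : 0 < b) (t : ℕ × ℕ × ℕ) (r s : Fin b) :
    (blk (N := N) hb t).src (enc 0 r s) = cell hb t.1 r t.2.1 s := by
  simp only [blk, enc_div hb, enc_mod, rs_div, rs_mod]
  rfl

theorem src1 (hb : 0 < b) (t : ℕ × ℕ × ℕ) (r s : Fin b) :
    (blk (N := N) hb t).src (enc 1 r s) = cell hb t.2.1 r t.2.2 s := by
  simp only [blk, enc_div hb, enc_mod, rs_div, rs_mod]
  rfl

theorem src2 (hb : 0 < b) (t : ℕ × ℕ × ℕ) (r s : Fin b) :
    (blk (N := N) hb t).src (enc 2 r s) = cell hb t.1 r t.2.2 s := by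
  simp only [blk, enc_div hb, enc_mod, rs_div, rs_mod]
  rfl

theorem src3 (hb : 0 < b) (t : ℕ × ℕ × ℕ) (r s : Fin b) :
    (blk (N := N) hb t).src (enc 3 r s) = .inr (0, ⟨0, by positivity⟩) := by
  simp only [blk, enc_div hb, enc_mod, rs_div, rs_mod]
  rfl

/-- the state of the memory -/
def St (σ : Mem (4 * b ^ 2)) (v : Prop) : Prop := (∀ j, σ 1 j = 0) ∧ ∀ j, 1 ≤ σ 0 j ↔ v

/-- three blocks contain a triangle -/
def HitB (G : SimpleGraph (Fin N)) (b : ℕ) (t : ℕ × ℕ × ℕ) : Prop :=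
  ∃ u v w : Fin N, G.Adj u v ∧ G.Adj v w ∧ G.Adj u w ∧ u.val / b = t.1 ∧ v.val / b = t.2.1 ∧
    w.val / b = t.2.2

theorem rd_cell (hb : 0 < b) (G : SimpleGraph (Fin N)) {σ : Mem (4 * b ^ 2)} (h : ∀ j, σ 1 j = 0)
    (x y : ℕ) (r s : Fin b) : 1 ≤ rd (adj G) σ (cell hb x r y s) ↔
      ∃ u v : Fin N, G.Adj u v ∧ u.val = x * b + r ∧ v.val = y * b + s := by
  classical
  rw [cell]
  by_cases h1 : x * b + r.val < N ∧ y * b + s.val < N
  · rw [dif_pos h1]
    simp only [rd, adj]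
    constructor
    · intro h2
      by_cases h3 : G.Adj ⟨x * b + r, h1.1⟩ ⟨y * b + s, h1.2⟩
      · exact ⟨_, _, h3, rfl, rfl⟩
      · rw [if_neg h3] at h2
        norm_num at h2
    · rintro ⟨u, v, huv, h2, h3⟩
      have e1 : (⟨x * b + r, h1.1⟩ : Fin N) = u := Fin.ext h2.symm
      have e2 : (⟨y * b + s, h1.2⟩ : Fin N) = v := Fin.ext h3.symm
      rw [e1, e2, if_pos huv]
  · rw [dif_neg h1]
    simp only [rd]
    rw [h]
    constructor
    · intro h2
      norm_num at h2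
    · rintro ⟨u, v, _, h2, h3⟩
      exact absurd ⟨by have := u.isLt; omega, by have := v.isLt; omega⟩ h1

theorem one_le_ite {P : Prop} {inst : Decidable P} : (1 : ℝ) ≤ (@ite _ P inst 1 0) ↔ P := by
  split_ifs with h
  · simp [h]
  · simp only [h, iff_false]
    norm_num

theorem st_step (hb : 0 < b) (G : SimpleGraph (Fin N)) {σ : Mem (4 * b ^ 2)} {v : Prop}
    (h : St σ v) (t : ℕ × ℕ × ℕ) : St ((blk hb t).exec (adj G) σ) (v ∨ HitB G b t) := by
  classical
  refine ⟨fun j => ?_, fun j => ?_⟩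
  · rw [Ins.exec, Function.update_of_ne (by simp [blk])]
    exact h.1 j
  · have e : 1 ≤ (blk hb t).exec (adj G) σ 0 j ↔ (∃ r s u : Fin b,
        1 ≤ rd (adj G) σ ((blk hb t).src (enc 0 r s)) ∧
        1 ≤ rd (adj G) σ ((blk hb t).src (enc 1 s u)) ∧
        1 ≤ rd (adj G) σ ((blk hb t).src (enc 2 r u))) ∨
        1 ≤ rd (adj G) σ ((blk hb t).src (enc 3 ⟨0, hb⟩ ⟨0, hb⟩)) := by
      have e1 : (blk hb t).exec (adj G) σ 0 =
          (blk (N := N) hb t).f (fun i => rd (adj G) σ ((blk hb t).src i)) := by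
        rw [Ins.exec]
        exact Function.update_self _ _ _
      rw [e1]
      exact one_le_ite
    rw [e]
    simp only [src0, src1, src2, src3]
    have h3 : (1 ≤ rd (adj G) σ (.inr (0, ⟨0, by positivity⟩))) ↔ v := h.2 _
    rw [h3]
    have h4 : (∃ r s u : Fin b, 1 ≤ rd (adj G) σ (cell hb t.1 r t.2.1 s) ∧
        1 ≤ rd (adj G) σ (cell hb t.2.1 s t.2.2 u) ∧
        1 ≤ rd (adj G) σ (cell hb t.1 r t.2.2 u)) ↔ HitB G b t := by
      constructor
      · rintro ⟨r, s, u, h5, h6, h7⟩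
        rw [rd_cell hb G h.1] at h5 h6 h7
        obtain ⟨a1, a2, h5, a3, a4⟩ := h5
        obtain ⟨b1, b2, h6, b3, b4⟩ := h6
        obtain ⟨c1, c2, h7, c3, c4⟩ := h7
        have e1 : b1 = a2 := Fin.ext (by omega)
        have e2 : c1 = a1 := Fin.ext (by omega)
        have e3 : c2 = b2 := Fin.ext (by omega)
        subst e1 e2 e3
        refine ⟨c1, b1, c2, h5, h6, h7, ?_, ?_, ?_⟩
        · rw [a3, mul_comm, Nat.mul_add_div hb, Nat.div_eq_of_lt r.isLt, add_zero]
        · rw [a4, mul_comm, Nat.mul_add_div hb, Nat.div_eq_of_lt s.isLt, add_zero]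
        · rw [b4, mul_comm, Nat.mul_add_div hb, Nat.div_eq_of_lt u.isLt, add_zero]
      · rintro ⟨a, b', c, h5, h6, h7, h8, h9, h10⟩
        have k : ∀ n : ℕ, n = n / b * b + n % b := fun n => (Nat.div_add_mod' n b).symm
        refine ⟨⟨a.val % b, Nat.mod_lt _ hb⟩, ⟨b'.val % b, Nat.mod_lt _ hb⟩,
          ⟨c.val % b, Nat.mod_lt _ hb⟩, ?_, ?_, ?_⟩
        · rw [rd_cell hb G h.1]
          exact ⟨a, b', h5, by rw [← h8]; exact k _, by rw [← h9]; exact k _⟩
        · rw [rd_cell hb G h.1]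
          exact ⟨b', c, h6, by rw [← h9]; exact k _, by rw [← h10]; exact k _⟩
        · rw [rd_cell hb G h.1]
          exact ⟨a, c, h7, by rw [← h8]; exact k _, by rw [← h10]; exact k _⟩
    rw [h4]
    exact or_comm

theorem st_list (hb : 0 < b) (G : SimpleGraph (Fin N)) : ∀ (l : List (ℕ × ℕ × ℕ))
    {σ : Mem (4 * b ^ 2)} {v : Prop}, St σ v →
      St (execs (adj G) (l.map (blk hb)) σ) (v ∨ ∃ t ∈ l, HitB G b t)
  | [], σ, v, h => by simpa [execs_nil] using h
  | t :: l, σ, v, h => by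
    have h1 := st_list hb G l (st_step hb G h t)
    rw [List.map_cons, execs_cons]
    have e : ((v ∨ HitB G b t) ∨ ∃ t ∈ l, HitB G b t) ↔ (v ∨ ∃ t' ∈ t :: l, HitB G b t') := by
      simp only [List.mem_cons, exists_eq_or_imp]
      tauto
    exact ⟨h1.1, fun j => (h1.2 j).trans e⟩

/-- straight-line part of an algorithm -/
def ops {K : Type} {w : ℕ} {β : Type} (W : List (Ins K w)) (A : Alg K w β) : Alg K w β :=
  W.foldr Alg.op A

theorem ops_run {K : Type} {w : ℕ} {β : Type} (x : K → ℝ) (A : Alg K w β) :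
    ∀ (W : List (Ins K w)) (σ : Mem w), (ops W A).run x σ = A.run x (execs x W σ)
  | [], _ => rfl
  | I :: W, σ => by
    change (Alg.op I (ops W A)).run x σ = _
    rw [Alg.run, execs_cons]
    exact ops_run x A W _

theorem ops_leaves {K : Type} {w : ℕ} {β : Type} (A : Alg K w β) :
    ∀ (W : List (Ins K w)), (ops W A).leaves = A.leaves
  | [] => rfl
  | I :: W => by
    change (Alg.op I (ops W A)).leaves = _
    rw [Alg.leaves]
    exact ops_leaves A W

theorem ops_steps {K : Type} {w : ℕ} {β : Type} (A : Alg K w β) :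
    ∀ (W : List (Ins K w)), (ops W A).steps = W.length + A.steps
  | [] => by simp [ops]
  | I :: W => by
    change (Alg.op I (ops W A)).steps = _
    rw [Alg.steps, ops_steps A W, List.length_cons]
    ring

/-- The upper bound for triangle detection. -/
theorem tri_upper (N b : ℕ) (hb : 1 ≤ b) :
    ∃ A : Alg (Fin N × Fin N) (4 * b ^ 2) Bool, A.leaves = 2 ∧ A.steps ≤ (N / b + 1) ^ 3 ∧
      ∀ G : SimpleGraph (Fin N),
        (A.run (adj G) (fun _ _ => 0)).1 = true ↔ ¬ G.CliqueFree 3 := by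
  classical
  have hb' : 0 < b := hb
  set m := N / b + 1 with hm
  set l : List (ℕ × ℕ × ℕ) := (Finset.range m ×ˢ (Finset.range m ×ˢ Finset.range m)).toList with hl
  refine ⟨ops (l.map (blk hb')) (.test (.inr (0, ⟨0, by positivity⟩)) 1 (.leaf false) (.leaf true)),
    ?_, ?_, ?_⟩
  · rw [ops_leaves]
    rfl
  · rw [ops_steps, List.length_map]
    have h1 : l.length = m ^ 3 := by
      rw [hl, Finset.length_toList, card_product, card_product, card_range]
      ring
    rw [h1]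
    simp [Alg.steps]
  · intro G
    rw [ops_run]
    have h0 : St (b := b) (fun _ _ => 0) False := ⟨fun _ => rfl, fun j => by norm_num⟩
    have h1 := st_list hb' G l h0
    rw [Alg.run]
    have h2 := h1.2 ⟨0, by positivity⟩
    have h3 : (∃ t ∈ l, HitB G b t) ↔ ¬ G.CliqueFree 3 := by
      constructor
      · rintro ⟨t, _, u, v, w, h4, h5, h6, _⟩
        rw [SimpleGraph.CliqueFree]
        push Not
        exact ⟨{u, v, w}, SimpleGraph.is3Clique_triple_iff.2 ⟨h4, h6, h5⟩⟩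
      · intro h4
        rw [SimpleGraph.CliqueFree] at h4
        push Not at h4
        obtain ⟨s, hs⟩ := h4
        obtain ⟨u, v, w, h5, h6, h7, _⟩ := SimpleGraph.is3Clique_iff.1 hs
        refine ⟨(u.val / b, v.val / b, w.val / b), ?_, u, v, w, h5, h7, h6, rfl, rfl, rfl⟩
        rw [hl, Finset.mem_toList, mem_product, mem_product, mem_range, mem_range, mem_range]
        have k : ∀ x : Fin N, x.val / b < m := by
          intro x
          rw [hm]
          exact Nat.lt_succ_of_le (Nat.div_le_div_right x.isLt.le)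
        exact ⟨k _, k _, k _⟩
    by_cases h4 : rd (adj G) (execs (adj G) (l.map (blk hb')) fun _ _ => 0)
        (.inr (0, ⟨0, by positivity⟩)) < 1
    · rw [if_pos h4, Alg.run]
      have h5 : ¬ (False ∨ ∃ t ∈ l, HitB G b t) := fun h => absurd (h2.2 h) (not_le.2 h4)
      rw [false_or, h3] at h5
      simp only [Bool.false_eq_true, false_iff]
      exact h5
    · rw [if_neg h4, Alg.run]
      have h5 := h2.1 (not_lt.1 h4)
      rw [false_or, h3] at h5
      simp only [true_iff]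
      exact h5

end Pool.Agent.L5helper51.WG
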